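import Mathlib

set_option autoImplicit false

/-!
# p-adic closures of finitely generated groups of rational points on `R_{K/ℚ}(G_m)`

`K` is a number field and `A = R_{K/ℚ}(G_m)` is the Weil restriction torus, so that
`A(ℚ) = Kˣ` and `A(ℚ_p) = (ℚ_p ⊗ K)ˣ`.
-/

namespace Pool.Agent.H440R3

open scoped TensorProduct

section padic

variable (p : ℕ) [Fact p.Prime] (K : Type) [Field K] [NumberField K]

/-- The `ℚ_p`-algebra `ℚ_p ⊗ K`. -/
abbrev Kp : Type := ℚ_[p] ⊗[ℚ] K

/-- The natural topology of the finite dimensional `ℚ_p`-vector space `ℚ_p ⊗ K`. -/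
noncomputable instance instTopKp : TopologicalSpace (Kp p K) := moduleTopology ℚ_[p] (Kp p K)

instance instModTopKp : IsModuleTopology ℚ_[p] (Kp p K) := ⟨rfl⟩

instance instTopRingKp : IsTopologicalRing (Kp p K) :=
  IsModuleTopology.isTopologicalRing ℚ_[p] (Kp p K)

/-- `A(ℚ_p) = (ℚ_p ⊗ K)ˣ`, with the topology of a group of units. -/
abbrev QpPoints : Type := (Kp p K)ˣ

/-- The inclusion `A(ℚ) = Kˣ → (ℚ_p ⊗ K)ˣ = A(ℚ_p)`. -/
noncomputable def incl : Kˣ →* QpPoints p K :=
  Units.map ((Algebra.TensorProduct.includeRight : K →ₐ[ℚ] Kp p K) : K →* Kp p K)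

/-- The closure in `A(ℚ_p)` of a subgroup `L` of `A(ℚ)`. -/
noncomputable def closureIn (L : Subgroup Kˣ) : Subgroup (QpPoints p K) :=
  (L.map (incl p K)).topologicalClosure

/-- `C` is the maximal compact subgroup of `H`. -/
def IsMaxCompact (H C : Subgroup (QpPoints p K)) : Prop :=
  C ≤ H ∧ IsCompact (C : Set (QpPoints p K)) ∧
    ∀ C' : Subgroup (QpPoints p K), C' ≤ H → IsCompact (C' : Set (QpPoints p K)) → C' ≤ C

/-- `C` is commensurable with `ℤ_p ^ ℓ`: a subgroup of finite index of `C` is isomorphic to a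
subgroup of finite index of `ℤ_p ^ ℓ`.  Only an isomorphism of abstract groups is asked for, so that
this follows from commensurability of topological groups. -/
def CommensurableZp (ℓ : ℕ) (C : Subgroup (QpPoints p K)) : Prop :=
  ∃ (H : Subgroup C) (Z : Subgroup (Multiplicative (Fin ℓ → ℤ_[p]))),
    H.FiniteIndex ∧ Z.FiniteIndex ∧ Nonempty (H ≃* Z)

/-- The embeddings of `K` into an algebraic closure of `ℚ_p`. -/
abbrev Emb : Type := K →ₐ[ℚ] AlgebraicClosure ℚ_[p]

/-- The value at `x ∈ A(ℚ) = Kˣ` of the character `∏_σ σ ^ (χ σ)` of the torus `A`; the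
characters of `A` over an algebraic closure of `ℚ_p` are exactly these. -/
noncomputable def charValue (χ : Emb p K → ℤ) (x : Kˣ) : (AlgebraicClosure ℚ_[p])ˣ :=
  ∏ σ : Emb p K, (Units.map (σ : K →* AlgebraicClosure ℚ_[p]) x) ^ (χ σ)

/-- For the algebraic subgroup `B = {χ = 1 for all χ ∈ Ψ}` of `A` (over an algebraic closure of
`ℚ_p`) given by a group `Ψ` of characters: the group `B ∩ A(ℚ)`. -/
noncomputable def ratPoints (Ψ : AddSubgroup (Emb p K → ℤ)) : Subgroup Kˣ where
  carrier := {x | ∀ χ ∈ Ψ, charValue p K χ x = 1}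
  mul_mem' := by
    intro x y hx hy χ hχ
    have h : charValue p K χ (x * y) = charValue p K χ x * charValue p K χ y := by
      unfold charValue
      rw [← Finset.prod_mul_distrib]
      refine Finset.prod_congr rfl fun σ _ => ?_
      rw [map_mul, mul_zpow]
    rw [h, hx χ hχ, hy χ hχ, mul_one]
  one_mem' := by
    intro χ _
    unfold charValue
    simp
  inv_mem' := by
    intro x hx χ hχ
    have h : charValue p K χ x⁻¹ = (charValue p K χ x)⁻¹ := by
      unfold charValue
      rw [← Finset.prod_inv_distrib]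
      refine Finset.prod_congr rfl fun σ _ => ?_
      rw [map_inv, inv_zpow]
    rw [h, hx χ hχ, inv_one]

/-- The rank of a commutative group. -/
noncomputable def rk (G : Type) [CommGroup G] : ℕ := Module.finrank ℤ (Additive G)

/-- The `p`-adic part of the expected answer for `A = R_{K/ℚ}(G_m)`.  Let `L ⊆ A(ℚ)` be finitely
generated and contained in a compact subgroup of `A(ℚ_p)`, and suppose that
`rank (L ∩ B) ≤ dim B` for every algebraic subgroup `B` of `A` (over an algebraic closure of
`ℚ_p`; `B = {χ = 1 for all χ ∈ Ψ}` has dimension `[K : ℚ] - rank Ψ`).  Then the maximal compact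
subgroup of the closure of `L` in `A(ℚ_p)` is commensurable with `ℤ_p ^ rank L`. -/
def PadicPart : Prop :=
  ∀ L : Subgroup Kˣ, L.FG →
    (∃ C : Subgroup (QpPoints p K), IsCompact (C : Set (QpPoints p K)) ∧ L.map (incl p K) ≤ C) →
    (∀ Ψ : AddSubgroup (Emb p K → ℤ),
      rk ↥(L ⊓ ratPoints p K Ψ) + Module.finrank ℤ Ψ ≤ Module.finrank ℚ K) →
    ∀ C : Subgroup (QpPoints p K), IsMaxCompact p K (closureIn p K L) C →
      CommensurableZp p K (rk L) C

end padic

end Pool.Agent.H440R3
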