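import Mathlib

set_option autoImplicit false

/-!
# Linear algebra: the lattice of matrices `[symmetric | column]`
-/

namespace Pool.Agent.H440R3

/-- Index set: positions `(i, j)` of a `4 × 5` matrix with `i ≤ j`. -/
abbrev Idx : Type := {x : Fin 4 × Fin 5 // (x.1 : ℕ) ≤ (x.2 : ℕ)}

theorem card_Idx : Fintype.card Idx = 14 := by decide

/-- The `4 × 5` matrix with symmetric left block and given entries on and above the diagonal. -/
def fill {R : Type*} (c : Idx → R) (i : Fin 4) (j : Fin 5) : R :=
  if h : (i : ℕ) ≤ (j : ℕ) then c ⟨(i, j), h⟩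
  else c ⟨(⟨j, by have := i.2; omega⟩, i.castSucc), by simp; omega⟩

theorem fill_of_le {R : Type*} (c : Idx → R) (x : Idx) : fill c x.1.1 x.1.2 = c x := by
  unfold fill
  rw [dif_pos x.2]

theorem fill_symm {R : Type*} (c : Idx → R) (i j : Fin 4) :
    fill c i j.castSucc = fill c j i.castSucc := by
  unfold fill
  simp only [Fin.val_castSucc]
  rcases lt_trichotomy (i : ℕ) (j : ℕ) with h | h | h
  · rw [dif_pos h.le, dif_neg (by omega)]
  · have : i = j := Fin.ext h
    subst this; rfl
  · rw [dif_neg (by omega), dif_pos h.le]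

theorem fill_map {R S : Type*} (φ : R → S) (c : Idx → R) (i : Fin 4) (j : Fin 5) :
    φ (fill c i j) = fill (fun x => φ (c x)) i j := by
  unfold fill
  split_ifs <;> rfl

theorem fill_add {R : Type*} [Add R] (c c' : Idx → R) (i : Fin 4) (j : Fin 5) :
    fill (c + c') i j = fill c i j + fill c' i j := by
  unfold fill
  split_ifs <;> rfl

theorem fill_smul {R S : Type*} [SMul S R] (s : S) (c : Idx → R) (i : Fin 4) (j : Fin 5) :
    fill (s • c) i j = s • fill c i j := by
  unfold fill
  split_ifs <;> rfl

theorem fill_zero {R : Type*} [Zero R] (i : Fin 4) (j : Fin 5) :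
    fill (0 : Idx → R) i j = 0 := by
  unfold fill
  split_ifs <;> rfl

theorem eq_zero_of_fill {R : Type*} [Zero R] (c : Idx → R) (h : ∀ i j, fill c i j = 0) : c = 0 := by
  funext x
  rw [← fill_of_le c x, h]
  rfl

/-- A vector of `R⁴`, completed by a fifth coordinate such that the sum is zero. -/
def ext5 {R : Type*} [AddCommGroup R] (v : Fin 4 → R) (i : Fin 5) : R :=
  Fin.lastCases (motive := fun _ => R) (-∑ k, v k) v i

theorem ext5_last {R : Type*} [AddCommGroup R] (v : Fin 4 → R) :
    ext5 v (Fin.last 4) = -∑ k, v k := Fin.lastCases_last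

theorem ext5_castSucc {R : Type*} [AddCommGroup R] (v : Fin 4 → R) (i : Fin 4) :
    ext5 v i.castSucc = v i := Fin.lastCases_castSucc i

theorem ext5_sum {R : Type*} [AddCommGroup R] (v : Fin 4 → R) : ∑ i, ext5 v i = 0 := by
  rw [Fin.sum_univ_castSucc, ext5_last]
  simp only [ext5_castSucc]
  exact add_neg_cancel _

theorem ext5_add {R : Type*} [AddCommGroup R] (v w : Fin 4 → R) (i : Fin 5) :
    ext5 (v + w) i = ext5 v i + ext5 w i := by
  induction i using Fin.lastCases with
  | last =>
    rw [ext5_last, ext5_last, ext5_last]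
    simp only [Pi.add_apply, Finset.sum_add_distrib]
    abel
  | cast i => simp only [ext5_castSucc, Pi.add_apply]

theorem ext5_smul {R S : Type*} [AddCommGroup R] [Monoid S] [DistribMulAction S R] (s : S)
    (v : Fin 4 → R) (i : Fin 5) : ext5 (s • v) i = s • ext5 v i := by
  induction i using Fin.lastCases with
  | last =>
    rw [ext5_last, ext5_last, smul_neg, Finset.smul_sum]
    rfl
  | cast i => simp only [ext5_castSucc, Pi.smul_apply]

theorem ext5_map {R S : Type*} [AddCommGroup R] [AddCommGroup S] (φ : R →+ S) (v : Fin 4 → R)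
    (i : Fin 5) : φ (ext5 v i) = ext5 (fun k => φ (v k)) i := by
  induction i using Fin.lastCases with
  | last => rw [ext5_last, ext5_last, map_neg, map_sum]
  | cast i => simp only [ext5_castSucc]

/-- A subspace of the space of `4 × 5` matrices `[symmetric | column]` whose columns lie in a given
subspace `C` has dimension at most `4 dim C`. -/
theorem finrank_fill_le (C : Submodule ℚ (Fin 4 → ℚ)) (D : Submodule ℚ (Idx → ℚ))
    (hD : ∀ c ∈ D, ∀ j, (fun i => fill c i j) ∈ C) :
    Module.finrank ℚ D ≤ 4 * Module.finrank ℚ C := by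
  by_cases hC : C = ⊤
  · have h1 : Module.finrank ℚ C = 4 := by rw [hC, finrank_top]; simp
    have h2 : Module.finrank ℚ D ≤ 14 := by
      refine (Submodule.finrank_le D).trans ?_
      rw [Module.finrank_fintype_fun_eq_card, card_Idx]
    omega
  · obtain ⟨f, hf0, hf⟩ := Submodule.exists_le_ker_of_lt_top C (lt_top_iff_ne_top.mpr hC)
    have hex : ∃ j₀ : Fin 4, f (Pi.single j₀ 1) ≠ 0 := by
      by_contra hcon
      push Not at hcon
      apply hf0
      apply LinearMap.pi_ext'
      intro i
      apply LinearMap.ext_ring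
      simpa using hcon i
    obtain ⟨j₀, hj₀⟩ := hex
    let col : Fin 5 → (Idx → ℚ) →ₗ[ℚ] (Fin 4 → ℚ) := fun j =>
      { toFun := fun c i => fill c i j
        map_add' := fun c c' => by funext i; exact fill_add c c' i j
        map_smul' := fun s c => by funext i; exact fill_smul s c i j }
    let Φ : D →ₗ[ℚ] (Fin 4 → C) := LinearMap.pi fun k =>
      ((col ((j₀.castSucc).succAbove k)).domRestrict D).codRestrict C (fun c => hD c c.2 _)
    have hΦ : Function.Injective Φ := by
      rw [← LinearMap.ker_eq_bot, LinearMap.ker_eq_bot']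
      intro c hc
      have hcol : ∀ j : Fin 5, j ≠ j₀.castSucc → ∀ i, fill (c : Idx → ℚ) i j = 0 := by
        intro j hj i
        obtain ⟨k, rfl⟩ := Fin.exists_succAbove_eq hj
        have h1 := congrFun hc k
        have h2 := congrArg (fun x : C => (x : Fin 4 → ℚ) i) h1
        exact h2
      have hoff : ∀ i : Fin 4, i ≠ j₀ → fill (c : Idx → ℚ) i j₀.castSucc = 0 := by
        intro i hi
        rw [fill_symm]
        exact hcol _ (fun h => hi (Fin.castSucc_injective _ h)) _
      have hdiag : fill (c : Idx → ℚ) j₀ j₀.castSucc = 0 := by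
        have h1 : (fun i => fill (c : Idx → ℚ) i j₀.castSucc) =
            fill (c : Idx → ℚ) j₀ j₀.castSucc • (Pi.single j₀ (1 : ℚ) : Fin 4 → ℚ) := by
          funext i
          by_cases hi : i = j₀
          · subst hi; simp
          · rw [hoff i hi]; simp [hi]
        have h2 : f (fun i => fill (c : Idx → ℚ) i j₀.castSucc) = 0 := hf (hD c c.2 _)
        rw [h1, map_smul, smul_eq_mul] at h2
        exact (mul_eq_zero.mp h2).resolve_right hj₀
      apply Subtype.ext
      apply eq_zero_of_fill
      intro i j
      by_cases hj : j = j₀.castSucc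
      · subst hj
        by_cases hi : i = j₀
        · subst hi; exact hdiag
        · exact hoff i hi
      · exact hcol j hj i
    have := LinearMap.finrank_le_finrank_of_injective hΦ
    rwa [Module.finrank_pi_fintype, Finset.sum_const, Finset.card_univ, Fintype.card_fin,
      smul_eq_mul] at this

/-- A `ℤ`-module which embeds into a `ℚ`-vector space has at most the rank of that space. -/
theorem finrank_int_le {M V : Type*} [AddCommGroup M] [AddCommGroup V] [Module ℚ V]
    [FiniteDimensional ℚ V] (f : M →+ V) (hf : Function.Injective f) :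
    Module.finrank ℤ M ≤ Module.finrank ℚ V := by
  obtain ⟨s, hs, hli⟩ := exists_finset_linearIndependent_of_le_finrank (R := ℤ) (M := M) le_rfl
  have h1 : LinearIndependent ℤ (fun x : s => f.toIntLinearMap (x : M)) :=
    hli.map' f.toIntLinearMap (LinearMap.ker_eq_bot.mpr hf)
  have h2 : LinearIndependent ℚ (fun x : s => f.toIntLinearMap (x : M)) :=
    (LinearIndependent.iff_fractionRing ℤ ℚ).mp h1
  have h3 := h2.fintype_card_le_finrank
  rw [Fintype.card_coe, hs] at h3
  exact h3

end Pool.Agent.H440R3
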