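import Mathlib

set_option autoImplicit false

/-!
# The quintic `X ^ 5 - 25 X + 5` and its Galois group

The first part (the Galois group of `X ^ 5 - a X + b`) follows the file
`Archive/Wiedijk100Theorems/AbelRuffini.lean` of Mathlib (Thomas Browning).
-/

namespace Pool.Agent.H440R3

open Function Polynomial Polynomial.Gal Ideal

attribute [local instance] splits_ℚ_ℂ

variable (R : Type*) [CommRing R]

/-- The quintic polynomial `X ^ 5 - 25 X + 5`. -/
noncomputable def Φ : R[X] :=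
  X ^ 5 - C ((25 : ℕ) : R) * X + C ((5 : ℕ) : R)

variable {R}

@[simp]
theorem map_Phi {S : Type*} [CommRing S] (f : R →+* S) : (Φ R).map f = Φ S := by
  simp [Φ, -Nat.cast_ofNat]

@[simp]
theorem coeff_zero_Phi : (Φ R).coeff 0 = ((5 : ℕ) : R) := by
  simp [Φ, coeff_X_pow, -Nat.cast_ofNat]

@[simp]
theorem coeff_five_Phi : (Φ R).coeff 5 = 1 := by
  simp [Φ, -map_natCast]

theorem eval_Phi (x : R) : (Φ R).eval x = x ^ 5 - 25 * x + 5 := by
  simp [Φ]

theorem eval₂_Phi {S : Type*} [CommRing S] (f : R →+* S) (x : S) :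
    (Φ R).eval₂ f x = x ^ 5 - 25 * x + 5 := by
  rw [← eval_map, map_Phi, eval_Phi]

theorem aeval_Phi {S : Type*} [CommRing S] [Algebra R S] (x : S) :
    aeval x (Φ R) = x ^ 5 - 25 * x + 5 := by
  rw [aeval_def, eval₂_Phi]

variable [Nontrivial R]

theorem degree_Phi : (Φ R).degree = ((5 : ℕ) : WithBot ℕ) := by
  suffices degree (X ^ 5 - C ((25 : ℕ) : R) * X) = ((5 : ℕ) : WithBot ℕ) by
    rwa [Φ, degree_add_eq_left_of_degree_lt]
    convert! (degree_C_le (R := R)).trans_lt (WithBot.coe_lt_coe.mpr (show 0 < 5 by simp))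
  rw [degree_sub_eq_left_of_degree_lt] <;> rw [degree_X_pow]
  exact (degree_C_mul_X_le (((25 : ℕ) : R))).trans_lt (WithBot.coe_lt_coe.mpr (show 1 < 5 by simp))

theorem natDegree_Phi : (Φ R).natDegree = 5 :=
  natDegree_eq_of_degree_eq_some degree_Phi

theorem leadingCoeff_Phi : (Φ R).leadingCoeff = 1 := by
  rw [Polynomial.leadingCoeff, natDegree_Phi, coeff_five_Phi]

theorem monic_Phi : (Φ R).Monic :=
  leadingCoeff_Phi

theorem irreducible_Phi : Irreducible (Φ ℚ) := by
  have hp : Nat.Prime 5 := by norm_num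
  rw [← map_Phi (Int.castRingHom ℚ), ← IsPrimitive.Int.irreducible_iff_irreducible_map_cast]
  on_goal 1 =>
    apply irreducible_of_eisenstein_criterion (P := Ideal.span {((5 : ℕ) : ℤ)})
    · rwa [span_singleton_prime (Int.natCast_ne_zero.mpr hp.ne_zero), Int.prime_iff_natAbs_prime]
    · rw [leadingCoeff_Phi, mem_span_singleton]
      exact mod_cast mt Nat.dvd_one.mp hp.ne_one
    · intro n hn
      rw [mem_span_singleton]
      rw [degree_Phi] at hn; norm_cast at hn
      interval_cases n <;> simp [Φ, coeff_X_pow, coeff_X]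
    · simp only [degree_Phi, ← WithBot.coe_zero]
      decide
    · rw [coeff_zero_Phi, span_singleton_pow, mem_span_singleton]
      norm_num
  all_goals exact Monic.isPrimitive monic_Phi

theorem real_roots_Phi_le : Fintype.card ((Φ ℚ).rootSet ℝ) ≤ 3 := by
  rw [Φ, ← one_mul (X ^ 5), ← C_1]
  apply (card_rootSet_le_derivative _).trans
    (Nat.succ_le_succ ((card_rootSet_le_derivative _).trans (Nat.succ_le_succ _)))
  suffices (Polynomial.rootSet (C (20 : ℚ) * X ^ 3) ℝ).Subsingleton by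
    norm_num [Fintype.card_le_one_iff_subsingleton, ← mul_assoc] at *
    have h20 : (C 5 * C 4 * X ^ 3 : ℚ[X]) = C 20 * X ^ 3 := by
      rw [← C_mul]; norm_num
    rw [h20]
    exact this
  rw [rootSet_C_mul_X_pow] <;>
  norm_num

theorem real_roots_Phi_ge_aux :
    ∃ x y : ℝ, x ≠ y ∧ aeval x (Φ ℚ) = 0 ∧ aeval y (Φ ℚ) = 0 := by
  let f : ℝ → ℝ := fun x : ℝ => aeval x (Φ ℚ)
  have hf : ∀ x, f x = x ^ 5 - 25 * x + 5 := fun x => aeval_Phi x
  have hc : ∀ s : Set ℝ, ContinuousOn f s := fun s => (Φ ℚ).continuousOn_aeval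
  have hf0 : 0 ≤ f 0 := by rw [hf]; norm_num
  have hf1 : f 1 < 0 := by rw [hf]; norm_num
  have hfa : 0 ≤ f 25 := by rw [hf]; norm_num
  obtain ⟨x, ⟨-, hx1⟩, hx2⟩ := intermediate_value_Ico' (by norm_num : (0 : ℝ) ≤ 1) (hc _)
    (Set.mem_Ioc.mpr ⟨hf1, hf0⟩)
  obtain ⟨y, ⟨hy1, -⟩, hy2⟩ := intermediate_value_Ioc (by norm_num : (1 : ℝ) ≤ 25) (hc _)
    (Set.mem_Ioc.mpr ⟨hf1, hfa⟩)
  exact ⟨x, y, (hx1.trans hy1).ne, hx2, hy2⟩

theorem real_roots_Phi_ge : 2 ≤ Fintype.card ((Φ ℚ).rootSet ℝ) := by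
  have q_ne_zero : Φ ℚ ≠ 0 := monic_Phi.ne_zero
  obtain ⟨x, y, hxy, hx, hy⟩ := real_roots_Phi_ge_aux
  have key : ↑({x, y} : Finset ℝ) ⊆ (Φ ℚ).rootSet ℝ := by
    simp [Set.insert_subset, mem_rootSet_of_ne q_ne_zero, hx, hy]
  convert! Fintype.card_le_of_embedding (Set.embeddingOfSubset _ _ key)
  simp only [Finset.coe_sort_coe, Fintype.card_coe, Finset.card_singleton,
    Finset.card_insert_of_notMem (mt Finset.mem_singleton.mp hxy)]

theorem complex_roots_Phi : Fintype.card ((Φ ℚ).rootSet ℂ) = 5 :=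
  (card_rootSet_eq_natDegree irreducible_Phi.separable (IsAlgClosed.splits _)).trans natDegree_Phi

theorem gal_Phi : Bijective (galActionHom (Φ ℚ) ℂ) := by
  apply galActionHom_bijective_of_prime_degree' irreducible_Phi
  · simp only [natDegree_Phi]; decide
  · rw [complex_roots_Phi, Nat.succ_le_succ_iff]
    exact real_roots_Phi_le.trans (Nat.le_succ 3)
  · simp_rw [complex_roots_Phi, Nat.succ_le_succ_iff]
    exact real_roots_Phi_ge

/-- The splitting field of `X ^ 5 - 25 X + 5`. -/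
abbrev KK : Type := (Φ ℚ).SplittingField

/-- The roots in the splitting field. -/
abbrev RS : Set KK := (Φ ℚ).rootSet KK

theorem card_RS : Fintype.card RS = 5 :=
  (card_rootSet_eq_natDegree irreducible_Phi.separable (SplittingField.splits _)).trans
    natDegree_Phi

/-- A numbering of the roots. -/
noncomputable def rootEquiv : Fin 5 ≃ RS := (Fintype.equivFinOfCardEq card_RS).symm

/-- The five roots. -/
noncomputable def α (i : Fin 5) : KK := (rootEquiv i : KK)

theorem α_root (i : Fin 5) : (α i) ^ 5 - 25 * (α i) + 5 = 0 := by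
  have h := (mem_rootSet.mp (rootEquiv i).2).2
  rwa [aeval_Phi] at h

theorem α_inj : Injective α := fun _ _ h => rootEquiv.injective (Subtype.ext h)

/-- Every permutation of the roots comes from an automorphism. -/
theorem exists_gal (π : Equiv.Perm (Fin 5)) : ∃ g : KK ≃ₐ[ℚ] KK, ∀ i, g (α i) = α (π i) := by
  let E := Gal.rootsEquivRoots (Φ ℚ) ℂ
  let π' : Equiv.Perm ((Φ ℚ).rootSet ℂ) :=
    ((E.symm.trans rootEquiv.symm).trans π).trans (rootEquiv.trans E)
  obtain ⟨g, hg⟩ := gal_Phi.2 π'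
  refine ⟨g, fun i => ?_⟩
  have h1 : galActionHom (Φ ℚ) ℂ g (E (rootEquiv i)) = π' (E (rootEquiv i)) := by rw [hg]
  have h2 : galActionHom (Φ ℚ) ℂ g (E (rootEquiv i)) = g • (E (rootEquiv i)) := rfl
  have h3 : g • (E (rootEquiv i)) = E (g • (rootEquiv i)) := by
    have := Gal.smul_def (p := Φ ℚ) (E := ℂ) g (E (rootEquiv i))
    rw [this, show (rootsEquivRoots (Φ ℚ) ℂ).symm (E (rootEquiv i)) = rootEquiv i from
      E.symm_apply_apply _]
    rfl
  have h4 : π' (E (rootEquiv i)) = E (rootEquiv (π i)) := by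
    show E (rootEquiv (π (rootEquiv.symm (E.symm (E (rootEquiv i)))))) = _
    rw [E.symm_apply_apply, rootEquiv.symm_apply_apply]
  rw [h2, h3, h4] at h1
  have h5 := E.injective h1
  exact congrArg (fun x : RS => (x : KK)) h5

/-- The polynomial splits into linear factors at the roots. -/
theorem Phi_eq_prod : Φ KK = ∏ i, (X - C (α i)) := by
  have h1 : Multiset.card (Φ KK).roots = 5 := by
    have h := SplittingField.splits (Φ ℚ)
    rw [map_Phi] at h
    rw [← natDegree_Phi (R := KK)]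
    exact (splits_iff_card_roots.mp h)
  have h2 : (Finset.univ.val.map α) = (Φ KK).roots := by
    refine Multiset.eq_of_le_of_card_le ?_ ?_
    · rw [Multiset.le_iff_subset (Multiset.Nodup.map α_inj Finset.univ.nodup)]
      intro x hx
      obtain ⟨i, -, rfl⟩ := Multiset.mem_map.mp hx
      rw [mem_roots monic_Phi.ne_zero, IsRoot, eval_Phi]
      exact α_root i
    · rw [h1]; simp
  have h3 := prod_multiset_X_sub_C_of_monic_of_roots_card_eq (p := Φ KK) monic_Phi
    (by rw [h1, natDegree_Phi])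
  rw [← h3, ← h2, Multiset.map_map]
  rfl

theorem eval_prod (t : KK) : t ^ 5 - 25 * t + 5 = ∏ i, (t - α i) := by
  rw [← eval_Phi, Phi_eq_prod, Polynomial.eval_prod]
  simp

end Pool.Agent.H440R3
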