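import Mathlib
import Pool.Agent.H440R3.Quintic

set_option autoImplicit false

/-!
# Multiplicative independence of the numbers `α i - t j`
-/

namespace Pool.Agent.H440R3

open Polynomial NumberField IsDedekindDomain

/-- The value of the quintic at an integer. -/
def fv (t : ℤ) : ℤ := t ^ 5 - 25 * t + 5

/-- The derivative of the quintic at an integer. -/
def fd (t : ℤ) : ℤ := 5 * t ^ 4 - 25

instance : NumberField KK where
  to_charZero := inferInstance
  to_finiteDimensional := inferInstance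

theorem α_integral (i : Fin 5) : IsIntegral ℤ (α i) := by
  refine ⟨Φ ℤ, monic_Phi, ?_⟩
  rw [eval₂_Phi]
  exact α_root i

theorem fv_eq_prod (t : ℤ) : ((fv t : ℤ) : KK) = ∏ i, ((t : KK) - α i) := by
  rw [← eval_prod]
  simp [fv]

/-- The roots as algebraic integers. -/
noncomputable def αO (i : Fin 5) : 𝓞 KK := ⟨α i, α_integral i⟩

theorem coe_αO (i : Fin 5) : ((αO i : 𝓞 KK) : KK) = α i := rfl

theorem fvO_eq_prod (t : ℤ) : ((fv t : ℤ) : 𝓞 KK) = ∏ i, ((t : 𝓞 KK) - αO i) := by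
  apply RingOfIntegers.coe_injective
  have h : algebraMap (𝓞 KK) KK (∏ i, ((t : 𝓞 KK) - αO i)) = ∏ i, ((t : KK) - α i) := by
    rw [map_prod]
    refine Finset.prod_congr rfl fun i _ => ?_
    rw [map_sub, map_intCast]
    rfl
  have h2 := fv_eq_prod t
  rw [← h] at h2
  rw [← h2]
  simp

theorem sub_ne_zero' {t : ℤ} (ht : fv t ≠ 0) (i : Fin 5) : α i - (t : KK) ≠ 0 := by
  intro h
  have h1 : ((fv t : ℤ) : KK) = 0 := by
    rw [fv_eq_prod]
    refine Finset.prod_eq_zero (Finset.mem_univ i) ?_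
    rw [← neg_sub, h, neg_zero]
  exact ht (by exact_mod_cast h1)

theorem not_isUnit_sub {t : ℤ} {q : ℕ} (hq : q.Prime) (h : fv t = q ∨ fv t = -q) (i : Fin 5) :
    ¬ IsUnit (αO i - (t : 𝓞 KK)) := by
  intro hu
  obtain ⟨u, hu⟩ := hu
  have hfv : fv t ≠ 0 := by
    rcases h with h | h <;> rw [h] <;> simp [hq.ne_zero]
  have hinv : IsIntegral ℤ ((α i - (t : KK))⁻¹) := by
    have h1 : ((((u⁻¹ : (𝓞 KK)ˣ) : 𝓞 KK) : KK)) = (α i - (t : KK))⁻¹ := by
      have h2 : algebraMap (𝓞 KK) KK ((u : 𝓞 KK) * ((u⁻¹ : (𝓞 KK)ˣ) : 𝓞 KK)) = 1 := by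
        rw [Units.mul_inv, map_one]
      rw [map_mul, hu, map_sub, map_intCast] at h2
      exact (eq_inv_of_mul_eq_one_right h2)
    rw [← h1]
    exact RingOfIntegers.isIntegral_coe _
  have hall : ∀ k : Fin 5, IsIntegral ℤ ((α k - (t : KK))⁻¹) := by
    intro k
    obtain ⟨g, hg⟩ := exists_gal (Equiv.swap i k)
    have h1 := hinv.map (g : KK →ₐ[ℚ] KK)
    have h2 : (g : KK →ₐ[ℚ] KK) ((α i - (t : KK))⁻¹) = (α k - (t : KK))⁻¹ := by
      rw [map_inv₀, map_sub, map_intCast]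
      congr 2
      show g (α i) = α k
      rw [hg i, Equiv.swap_apply_left]
    rw [h2] at h1
    exact h1
  have hprod : IsIntegral ℤ (∏ k, (-1) * ((α k - (t : KK))⁻¹)) :=
    IsIntegral.prod _ fun k _ => (IsIntegral.neg isIntegral_one).mul (hall k)
  have hprod2 : (∏ k, (-1) * ((α k - (t : KK))⁻¹)) = algebraMap ℚ KK ((fv t : ℚ)⁻¹) := by
    have h1 : algebraMap ℚ KK ((fv t : ℚ)⁻¹) = ((fv t : ℤ) : KK)⁻¹ := by
      rw [map_inv₀]; simp
    rw [h1, fv_eq_prod, ← Finset.prod_inv_distrib]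
    refine Finset.prod_congr rfl fun k _ => ?_
    rw [← neg_sub, inv_neg, neg_one_mul, neg_neg]
  rw [hprod2, isIntegral_algebraMap_iff (algebraMap ℚ KK).injective,
    IsIntegrallyClosed.isIntegral_iff] at hprod
  obtain ⟨n, hn⟩ := hprod
  have h3 : n * fv t = 1 := by
    have h4 : (fv t : ℚ) ≠ 0 := by exact_mod_cast hfv
    have h5 : (n : ℚ) * (fv t : ℚ) = 1 := by
      rw [eq_intCast] at hn
      rw [hn, inv_mul_cancel₀ h4]
    exact_mod_cast h5
  have h6 : IsUnit (fv t) := IsUnit.of_mul_eq_one n (by rw [mul_comm]; exact h3)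
  rw [Int.isUnit_iff_natAbs_eq] at h6
  have h7 : q = 1 := by
    rcases h with h | h <;> rw [h] at h6 <;> simpa using h6
  exact hq.one_lt.ne' h7

/-- Data for the construction: five integers at which the quintic takes, up to sign, distinct prime
values not dividing the derivative. -/
structure Pts where
  /-- the integers -/
  t : Fin 5 → ℤ
  /-- the prime values -/
  q : Fin 5 → ℕ
  hq : ∀ j, (q j).Prime
  hval : ∀ j, fv (t j) = q j ∨ fv (t j) = -q j
  hinj : Function.Injective q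
  hder : ∀ j, ¬ (q j : ℤ) ∣ fd (t j)

namespace Pts

variable (P : Pts)

theorem fv_ne_zero (j : Fin 5) : fv (P.t j) ≠ 0 := by
  rcases P.hval j with h | h <;> rw [h] <;> simp [(P.hq j).ne_zero]

/-- The elements `α i - t j` of `Kˣ`. -/
noncomputable def ζ (i j : Fin 5) : KKˣ := Units.mk0 (α i - (P.t j : KK)) (sub_ne_zero' (P.fv_ne_zero j) i)

theorem mem_q {M : Ideal (𝓞 KK)} {j : Fin 5} {i : Fin 5} (h : αO i - (P.t j : 𝓞 KK) ∈ M) :
    ((P.q j : ℤ) : 𝓞 KK) ∈ M := by
  have h1 : ((fv (P.t j) : ℤ) : 𝓞 KK) ∈ M := by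
    rw [fvO_eq_prod, ← Finset.mul_prod_erase _ _ (Finset.mem_univ i)]
    refine M.mul_mem_right _ ?_
    rw [← neg_sub]
    exact M.neg_mem h
  rcases P.hval j with h2 | h2
  · rwa [h2] at h1
  · rw [h2] at h1
    have := M.neg_mem h1
    simpa using this

theorem coprime_contra {M : Ideal (𝓞 KK)} (hM : M ≠ ⊤) {a b : ℤ} (hab : IsCoprime a b)
    (ha : (a : 𝓞 KK) ∈ M) (hb : (b : 𝓞 KK) ∈ M) : False := by
  obtain ⟨u, v, huv⟩ := hab
  apply hM
  rw [Ideal.eq_top_iff_one]
  have h1 : ((u * a + v * b : ℤ) : 𝓞 KK) ∈ M := by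
    push_cast
    exact M.add_mem (M.mul_mem_left _ ha) (M.mul_mem_left _ hb)
  rw [huv] at h1
  simpa using h1

theorem fdO (t : ℤ) : ((fd t : ℤ) : 𝓞 KK) = ∑ i, ∏ j ∈ Finset.univ.erase i, ((t : 𝓞 KK) - αO j) := by
  apply RingOfIntegers.coe_injective
  have h := congrArg Polynomial.derivative Phi_eq_prod
  rw [Polynomial.derivative_prod_finset] at h
  have h2 := congrArg (Polynomial.eval (t : KK)) h
  rw [Polynomial.eval_finsetSum] at h2
  have h3 : Polynomial.eval (t : KK) (Polynomial.derivative (Φ KK)) = ((fd t : ℤ) : KK) := by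
    simp [Φ, fd]
    norm_num
  rw [h3] at h2
  have h4 : algebraMap (𝓞 KK) KK (∑ i, ∏ j ∈ Finset.univ.erase i, ((t : 𝓞 KK) - αO j)) =
      ∑ i, ∏ j ∈ Finset.univ.erase i, ((t : KK) - α j) := by
    rw [map_sum]
    refine Finset.sum_congr rfl fun i _ => ?_
    rw [map_prod]
    refine Finset.prod_congr rfl fun j _ => ?_
    rw [map_sub, map_intCast]
    rfl
  rw [h4]
  rw [map_intCast, h2]
  refine Finset.sum_congr rfl fun i _ => ?_
  simp [Polynomial.eval_prod]

/-- The numbers `α i - t j` are multiplicatively independent. -/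
theorem indep (e : Fin 5 → Fin 5 → ℤ) (h : ∏ i, ∏ j, (P.ζ i j) ^ (e i j) = 1) : e = 0 := by
  funext i₀ j₀
  show e i₀ j₀ = 0
  have hnu := not_isUnit_sub (P.hq j₀) (P.hval j₀) i₀
  obtain ⟨M, hM, hmem⟩ := exists_max_ideal_of_mem_nonunits hnu
  have hMtop : M ≠ ⊤ := hM.ne_top
  have hne : αO i₀ - (P.t j₀ : 𝓞 KK) ≠ 0 := by
    intro h0
    apply sub_ne_zero' (P.fv_ne_zero j₀) i₀
    have := congrArg (algebraMap (𝓞 KK) KK) h0
    rw [map_sub, map_intCast, map_zero] at this
    exact this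
  let v : HeightOneSpectrum (𝓞 KK) :=
    ⟨M, hM.isPrime, fun h0 => hne (by rw [h0] at hmem; simpa using hmem)⟩
  have hζ : ∀ i j, ((P.ζ i j : KKˣ) : KK) = algebraMap (𝓞 KK) KK (αO i - (P.t j : 𝓞 KK)) := by
    intro i j
    rw [map_sub, map_intCast]
    rfl
  have hone : ∀ i j, (i, j) ≠ (i₀, j₀) → v.valuation KK ((P.ζ i j : KKˣ) : KK) = 1 := by
    intro i j hij
    rw [hζ, HeightOneSpectrum.valuation_eq_one_iff_notMem]
    intro hmem2
    change αO i - (P.t j : 𝓞 KK) ∈ M at hmem2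
    have hq0 := P.mem_q hmem
    by_cases hj : j = j₀
    · subst hj
      have hi : i ≠ i₀ := fun h => hij (by rw [h])
      have hfd : ((fd (P.t j) : ℤ) : 𝓞 KK) ∈ M := by
        rw [fdO]
        refine M.sum_mem fun k _ => ?_
        by_cases hk : k = i
        · have : i₀ ∈ Finset.univ.erase k := by
            rw [hk]; exact Finset.mem_erase.mpr ⟨hi.symm, Finset.mem_univ _⟩
          rw [← Finset.mul_prod_erase _ _ this]
          refine M.mul_mem_right _ ?_
          rw [← neg_sub]; exact M.neg_mem hmem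
        · have : i ∈ Finset.univ.erase k := Finset.mem_erase.mpr ⟨fun h => hk h.symm, Finset.mem_univ _⟩
          rw [← Finset.mul_prod_erase _ _ this]
          refine M.mul_mem_right _ ?_
          rw [← neg_sub]; exact M.neg_mem hmem2
      have hcop : IsCoprime (P.q j : ℤ) (fd (P.t j)) := by
        rw [Int.isCoprime_iff_gcd_eq_one]
        have := (Nat.Prime.coprime_iff_not_dvd (P.hq j)).mpr
          (fun h => P.hder j (Int.natCast_dvd.mpr h) : ¬ P.q j ∣ (fd (P.t j)).natAbs)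
        exact this
      exact coprime_contra hMtop hcop hq0 hfd
    · have hq1 := P.mem_q hmem2
      have hcop : IsCoprime (P.q j : ℤ) (P.q j₀ : ℤ) := by
        rw [Nat.isCoprime_iff_coprime]
        exact (Nat.coprime_primes (P.hq j) (P.hq j₀)).mpr (fun h => hj (P.hinj h))
      exact coprime_contra hMtop hcop hq1 hq0
  have hlt : v.valuation KK ((P.ζ i₀ j₀ : KKˣ) : KK) < 1 := by
    rw [hζ, HeightOneSpectrum.valuation_lt_one_iff_mem]
    exact hmem
  have h1 := congrArg (fun u : KKˣ => v.valuation KK (u : KK)) h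
  simp only [Units.coe_prod, map_prod, Units.val_zpow_eq_zpow_val, map_zpow₀, Units.val_one,
    map_one] at h1
  have h2 : (∏ i, ∏ j, (v.valuation KK ((P.ζ i j : KKˣ) : KK)) ^ (e i j)) =
      (v.valuation KK ((P.ζ i₀ j₀ : KKˣ) : KK)) ^ (e i₀ j₀) := by
    rw [Finset.prod_eq_single i₀, Finset.prod_eq_single j₀]
    · intro j _ hj
      rw [hone i₀ j (fun h => hj (Prod.ext_iff.mp h).2), one_zpow]
    · intro h; exact absurd (Finset.mem_univ _) h
    · intro i _ hi
      refine Finset.prod_eq_one fun j _ => ?_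
      rw [hone i j (fun h => hi (Prod.ext_iff.mp h).1), one_zpow]
    · intro h; exact absurd (Finset.mem_univ _) h
  rw [h2] at h1
  by_contra hne0
  have hpos : (0 : WithZero (Multiplicative ℤ)) < v.valuation KK ((P.ζ i₀ j₀ : KKˣ) : KK) := by
    rw [zero_lt_iff]
    exact (Valuation.ne_zero_iff _).mpr (Units.ne_zero _)
  rcases lt_or_gt_of_ne hne0 with hneg | hposi
  · have := one_lt_zpow_of_neg₀ hpos hlt hneg
    exact (this.ne' h1)
  · have := zpow_lt_one₀ hpos hlt hposi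
    exact (this.ne h1)

end Pts

end Pool.Agent.H440R3
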