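import Mathlib
import Pool.Agent.H440R3.Defs
import Pool.Agent.H440R3.Indep
import Pool.Agent.H440R3.Fill

set_option autoImplicit false

/-!
# The group `L`, its rank, and its position with respect to algebraic subgroups
-/

namespace Pool.Agent.H440R3

theorem prod_zpow_sum {ι G : Type*} [CommGroup G] (s : Finset ι) (u : G) (f : ι → ℤ) :
    ∏ x ∈ s, u ^ f x = u ^ ∑ x ∈ s, f x := by
  classical
  induction s using Finset.induction_on with
  | empty => simp
  | insert a s ha ih => rw [Finset.prod_insert ha, Finset.sum_insert ha, zpow_add, ih]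

namespace Pts

variable (P : Pts)

/-- exponents of the `α i - t j` -/
def expo {R : Type*} [AddCommGroup R] (c : Idx → R) (i j : Fin 5) : R :=
  ext5 (fun k => fill c k j) i

theorem expo_add {R : Type*} [AddCommGroup R] (c c' : Idx → R) (i j : Fin 5) :
    expo (c + c') i j = expo c i j + expo c' i j := by
  unfold expo
  rw [← ext5_add]
  congr 1
  funext k
  exact fill_add c c' k j

theorem expo_zero {R : Type*} [AddCommGroup R] (i j : Fin 5) :
    expo (0 : Idx → R) i j = 0 := by
  have h := expo_add (0 : Idx → R) 0 i j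
  rw [add_zero] at h
  exact left_eq_add.mp h

/-- The homomorphism `ℤ^14 → Kˣ` whose image is `L`. -/
noncomputable def Y : Multiplicative (Idx → ℤ) →* KKˣ where
  toFun c := ∏ i, ∏ j, P.ζ i j ^ (expo (Multiplicative.toAdd c) i j)
  map_one' := by
    refine Finset.prod_eq_one fun i _ => Finset.prod_eq_one fun j _ => ?_
    rw [toAdd_one, expo_zero, zpow_zero]
  map_mul' c c' := by
    rw [← Finset.prod_mul_distrib]
    refine Finset.prod_congr rfl fun i _ => ?_
    rw [← Finset.prod_mul_distrib]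
    refine Finset.prod_congr rfl fun j _ => ?_
    rw [toAdd_mul, expo_add, zpow_add]

theorem Y_apply (c : Idx → ℤ) :
    P.Y (Multiplicative.ofAdd c) = ∏ i, ∏ j, P.ζ i j ^ (expo c i j) := rfl

theorem Y_injective : Function.Injective P.Y := by
  rw [injective_iff_map_eq_one]
  intro c hc
  have h := P.indep (expo (Multiplicative.toAdd c)) hc
  have h2 : Multiplicative.toAdd c = 0 := by
    apply eq_zero_of_fill
    intro i j
    have h3 := congrFun (congrFun h i.castSucc) j
    unfold expo at h3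
    rw [ext5_castSucc] at h3
    exact h3
  exact Multiplicative.toAdd.injective h2

/-- The group `L`. -/
noncomputable def L : Subgroup KKˣ := P.Y.range

theorem L_fg : P.L.FG := by
  unfold L
  exact (Group.fg_iff_subgroup_fg _).mp (Group.fg_range P.Y)

/-- `L` is free of rank `14`. -/
noncomputable def eqL : Multiplicative (Idx → ℤ) ≃* P.L := MonoidHom.ofInjective P.Y_injective

theorem rk_L : rk P.L = 14 := by
  unfold rk
  let e : Additive P.L ≃+ (Idx → ℤ) :=
    { toFun := fun x => Multiplicative.toAdd (P.eqL.symm x.toMul)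
      invFun := fun c => Additive.ofMul (P.eqL (Multiplicative.ofAdd c))
      left_inv := fun x => by simp
      right_inv := fun c => by simp
      map_add' := fun x y => by
        rw [toMul_add, map_mul, toAdd_mul] }
  rw [e.toIntLinearEquiv.finrank_eq, Module.finrank_fintype_fun_eq_card, card_Idx]

section emb

variable (p : ℕ) [Fact p.Prime]

instance : Nonempty (Emb p KK) :=
  ⟨(IsAlgClosed.lift : KK →ₐ[ℚ] AlgebraicClosure ℚ_[p])⟩

/-- A fixed embedding. -/
noncomputable def τ₀ : Emb p KK := Classical.arbitrary _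

theorem exists_perm (τ : Emb p KK) : ∃ π : Equiv.Perm (Fin 5), ∀ i, τ (α i) = τ₀ p (α (π i)) := by
  have hex : ∀ i, ∃ k, τ (α i) = τ₀ p (α k) := by
    intro i
    have h1 : (τ (α i)) ^ 5 - 25 * (τ (α i)) + 5 = 0 := by
      have := congrArg τ (α_root i)
      rw [map_add, map_sub, map_pow, map_mul, map_ofNat, map_ofNat, map_zero] at this
      exact this
    have h2 : ∀ x : AlgebraicClosure ℚ_[p], x ^ 5 - 25 * x + 5 = ∏ k, (x - τ₀ p (α k)) := by
      intro x
      have h3 : Φ (AlgebraicClosure ℚ_[p]) =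
          ∏ k, (Polynomial.X - Polynomial.C (τ₀ p (α k))) := by
        have h4 := congrArg (Polynomial.map (τ₀ p : KK →+* AlgebraicClosure ℚ_[p])) Phi_eq_prod
        rw [map_Phi, Polynomial.map_prod] at h4
        rw [h4]
        refine Finset.prod_congr rfl fun k _ => ?_
        simp
      rw [← eval_Phi, h3, Polynomial.eval_prod]
      simp
    rw [h2, Finset.prod_eq_zero_iff] at h1
    obtain ⟨k, _, hk⟩ := h1
    exact ⟨k, sub_eq_zero.mp hk⟩
  choose f hf using hex
  have hinj : Function.Injective f := by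
    intro i j hij
    apply α_inj
    apply τ.toRingHom.injective
    show τ (α i) = τ (α j)
    rw [hf i, hf j, hij]
  exact ⟨Equiv.ofBijective f (Finite.injective_iff_bijective.mp hinj), hf⟩

/-- The permutation of the roots defined by an embedding. -/
noncomputable def pm (τ : Emb p KK) : Equiv.Perm (Fin 5) := (exists_perm p τ).choose

theorem pm_spec (τ : Emb p KK) (i : Fin 5) : τ (α i) = τ₀ p (α (pm p τ i)) :=
  (exists_perm p τ).choose_spec i

theorem exists_emb (π : Equiv.Perm (Fin 5)) : ∃ τ : Emb p KK, pm p τ = π := by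
  obtain ⟨g, hg⟩ := exists_gal π
  refine ⟨(τ₀ p).comp (g : KK →ₐ[ℚ] KK), ?_⟩
  ext1 i
  apply α_inj
  apply (τ₀ p).toRingHom.injective
  have h1 := pm_spec p ((τ₀ p).comp (g : KK →ₐ[ℚ] KK)) i
  show τ₀ p (α _) = τ₀ p (α _)
  rw [← h1, ← hg i]
  rfl

theorem map_ζ (τ : Emb p KK) (i j : Fin 5) :
    Units.map (τ : KK →* AlgebraicClosure ℚ_[p]) (P.ζ i j) =
      Units.map (τ₀ p : KK →* AlgebraicClosure ℚ_[p]) (P.ζ (pm p τ i) j) := by
  ext
  show τ (α i - (P.t j : KK)) = τ₀ p (α (pm p τ i) - (P.t j : KK))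
  rw [map_sub, map_sub, pm_spec p τ i, map_intCast, map_intCast]

theorem charValue_Y (χ : Emb p KK → ℤ) (c : Idx → ℤ) :
    charValue p KK χ (P.Y (Multiplicative.ofAdd c)) =
      Units.map (τ₀ p : KK →* AlgebraicClosure ℚ_[p])
        (∏ r, ∏ j, P.ζ r j ^ (∑ τ, χ τ * expo c ((pm p τ).symm r) j)) := by
  unfold charValue
  have h1 : ∀ τ : Emb p KK,
      (Units.map (τ : KK →* AlgebraicClosure ℚ_[p]) (P.Y (Multiplicative.ofAdd c))) ^ (χ τ) =
      ∏ r, ∏ j, (Units.map (τ₀ p : KK →* AlgebraicClosure ℚ_[p]) (P.ζ r j)) ^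
        (χ τ * expo c ((pm p τ).symm r) j) := by
    intro τ
    rw [Y_apply, map_prod, ← Finset.prod_zpow]
    have h2 : ∀ i : Fin 5, (Units.map (τ : KK →* AlgebraicClosure ℚ_[p])
        (∏ j, P.ζ i j ^ expo c i j)) ^ χ τ =
        ∏ j, (Units.map (τ₀ p : KK →* AlgebraicClosure ℚ_[p]) (P.ζ (pm p τ i) j)) ^
          (χ τ * expo c i j) := by
      intro i
      rw [map_prod, ← Finset.prod_zpow]
      refine Finset.prod_congr rfl fun j _ => ?_
      rw [map_zpow, map_ζ, ← zpow_mul, mul_comm]
    simp only [h2]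
    rw [← Equiv.prod_comp (pm p τ) (fun r => ∏ j,
      (Units.map (τ₀ p : KK →* AlgebraicClosure ℚ_[p]) (P.ζ r j)) ^
        (χ τ * expo c ((pm p τ).symm r) j))]
    simp only [Equiv.symm_apply_apply]
  simp only [h1]
  rw [map_prod, Finset.prod_comm]
  refine Finset.prod_congr rfl fun r _ => ?_
  rw [map_prod, Finset.prod_comm]
  refine Finset.prod_congr rfl fun j _ => ?_
  rw [map_zpow]
  generalize Units.map (τ₀ p : KK →* AlgebraicClosure ℚ_[p]) (P.ζ r j) = u
  exact prod_zpow_sum _ _ _

end emb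

end Pts

end Pool.Agent.H440R3
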