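import Mathlib

set_option autoImplicit false

namespace Pool.Agent.H440R3

open Filter Topology

section auto

variable {p : ℕ} [Fact p.Prime] {C : Type*} [CommGroup C] [TopologicalSpace C]
  [IsTopologicalGroup C] [CompactSpace C] [T2Space C]

/-- In a compact commutative group with a dense finitely generated subgroup, the `n`-th powers form
an open subgroup. -/
theorem isOpen_pow {D : Subgroup C} (hD : D.FG) (hdense : Dense (D : Set C)) {n : ℕ} (hn : 0 < n) :
    IsOpen ((powMonoidHom n : C →* C).range : Set C) := by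
  set P := (powMonoidHom n : C →* C).range with hP
  have hPcl : IsClosed (P : Set C) := by
    have h : (P : Set C) = Set.range (fun x : C => x ^ n) := rfl
    rw [h]
    exact (isCompact_range (continuous_pow n)).isClosed
  -- `D / (D ∩ P)` is finite
  have hfin : Finite (D ⧸ P.subgroupOf D) := by
    have : Group.FG D := (Group.fg_iff_subgroup_fg _).mpr hD
    have htor : IsMulTorsion (D ⧸ P.subgroupOf D) := by
      intro x
      obtain ⟨y, rfl⟩ := QuotientGroup.mk_surjective x
      rw [isOfFinOrder_iff_pow_eq_one]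
      refine ⟨n, hn, ?_⟩
      rw [← QuotientGroup.mk_pow, QuotientGroup.eq_one_iff, Subgroup.mem_subgroupOf]
      exact ⟨(y : C), rfl⟩
    exact CommGroup.finite_of_fg_isMulTorsion _ htor
  -- the union of the cosets of `P` by elements of `D`
  have htop : ∀ x : C, ∃ d ∈ D, d⁻¹ * x ∈ P := by
    have hcl : IsClosed (⋃ q : D ⧸ P.subgroupOf D, {x : C | ((q.out : D) : C)⁻¹ * x ∈ P}) := by
      refine isClosed_iUnion_of_finite fun q => ?_
      exact hPcl.preimage (continuous_const.mul continuous_id)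
    have hsub : (D : Set C) ⊆ ⋃ q : D ⧸ P.subgroupOf D, {x : C | ((q.out : D) : C)⁻¹ * x ∈ P} := by
      intro d hd
      rw [Set.mem_iUnion]
      refine ⟨((⟨d, hd⟩ : D) : D ⧸ P.subgroupOf D), ?_⟩
      have h1 := QuotientGroup.out_eq' ((⟨d, hd⟩ : D) : D ⧸ P.subgroupOf D)
      rw [QuotientGroup.eq] at h1
      exact h1
    have huniv := hdense.closure_eq ▸ closure_minimal hsub hcl
    intro x
    obtain ⟨q, hq⟩ := Set.mem_iUnion.mp (huniv (Set.mem_univ x))
    exact ⟨((q.out : D) : C), (q.out : D).2, hq⟩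
  have hfi : P.FiniteIndex := by
    have hsurj : Function.Surjective
        (fun q : D ⧸ P.subgroupOf D => (((q.out : D) : C) : C ⧸ P)) := by
      intro x
      obtain ⟨y, rfl⟩ := QuotientGroup.mk_surjective x
      obtain ⟨d, hd, hdy⟩ := htop y
      refine ⟨((⟨d, hd⟩ : D) : D ⧸ P.subgroupOf D), ?_⟩
      have h1 := QuotientGroup.out_eq' ((⟨d, hd⟩ : D) : D ⧸ P.subgroupOf D)
      rw [QuotientGroup.eq, Subgroup.mem_subgroupOf] at h1
      show ((_ : C) : C ⧸ P) = (y : C ⧸ P)
      rw [QuotientGroup.eq]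
      have h2 := P.mul_mem h1 hdy
      simpa [mul_assoc] using h2
    have : Finite (C ⧸ P) := Finite.of_surjective _ hsurj
    exact Subgroup.finiteIndex_of_finite_quotient
  exact Subgroup.isOpen_of_isClosed_of_finiteIndex P hPcl

/-- Automatic continuity. -/
theorem continuous_of_fg_dense {D : Subgroup C} (hD : D.FG) (hdense : Dense (D : Set C)) {k : ℕ}
    (Θ : C →* Multiplicative (Fin k → ℤ_[p])) : Continuous Θ := by
  apply continuous_of_continuousAt_one
  rw [ContinuousAt, map_one]
  have key : Tendsto (fun x : C => Multiplicative.toAdd (Θ x)) (𝓝 1) (𝓝 (0 : Fin k → ℤ_[p])) := by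
    rw [tendsto_pi_nhds]
    intro l
    rw [Metric.tendsto_nhds]
    intro ε hε
    have hp1 : (1 : ℝ) < p := by exact_mod_cast (Fact.out : p.Prime).one_lt
    obtain ⟨n, hn⟩ := exists_pow_lt_of_lt_one hε (inv_lt_one_of_one_lt₀ hp1)
    have hopen := isOpen_pow hD hdense (n := p ^ n) (pow_pos (Fact.out : p.Prime).pos n)
    filter_upwards [hopen.mem_nhds (Subgroup.one_mem _)] with x hx
    obtain ⟨y, rfl⟩ := hx
    rw [Pi.zero_apply, dist_zero_right]
    show ‖(Multiplicative.toAdd (Θ (y ^ (p ^ n)))) l‖ < ε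
    rw [map_pow, toAdd_pow, Pi.smul_apply, nsmul_eq_mul, norm_mul]
    push_cast
    rw [norm_pow, PadicInt.norm_p]
    calc _ ≤ ((p : ℝ)⁻¹) ^ n * 1 :=
          mul_le_mul_of_nonneg_left (PadicInt.norm_le_one _) (by positivity)
      _ < ε := by rw [mul_one]; exact hn
  exact (continuous_ofAdd.tendsto (0 : Fin k → ℤ_[p])).comp key

end auto

end Pool.Agent.H440R3
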