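import Mathlib

set_option autoImplicit false

/-!
# Multiplicative relations modulo scalars in a free `ℤ_p`-algebra of rank `5`

Let `R` be a commutative `ℤ_p`-algebra with basis `b` of length `5`, `b 0 = 1`.  For five elements
`y_j ∈ 1 + p² R` and every `J` there is a vector `d` of natural numbers, not divisible by `p`, such
that `∏ y_j ^ d_j` is congruent to a scalar modulo `p ^ J`.
-/

namespace Pool.Agent.H440R3

section levels

variable {p : ℕ} [Fact p.Prime] {R : Type*} [CommRing R] [Algebra ℤ_[p] R]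

omit [Fact p.Prime] [Algebra ℤ_[p] R] in
/-- `(1 + p^ω r)^n = 1 + p^ω (n r + p (…))` -/
theorem pow_lev {ω : ℕ} (hω : 1 ≤ ω) (r : R) (n : ℕ) :
    ∃ r' t : R, (1 + (p : R) ^ ω * r) ^ n = 1 + (p : R) ^ ω * r' ∧ r' = n * r + p * t := by
  induction n with
  | zero => exact ⟨0, 0, by simp, by simp⟩
  | succ n ih =>
    obtain ⟨r', t, h1, h2⟩ := ih
    obtain ⟨m, rfl⟩ := Nat.exists_eq_add_of_le hω
    refine ⟨r' + r + (p : R) ^ (1 + m) * r * r', t + (p : R) ^ m * r * r', ?_, ?_⟩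
    · rw [pow_succ, h1]; ring
    · rw [h2]; push_cast; ring

omit [Fact p.Prime] [Algebra ℤ_[p] R] in
/-- `(1 + p^ω r)^p = 1 + p^(ω+1) (r + p (…))` for `ω ≥ 2` -/
theorem pow_p_lev {ω : ℕ} (hω : 2 ≤ ω) (r : R) :
    ∃ r' t : R, (1 + (p : R) ^ ω * r) ^ p = 1 + (p : R) ^ (ω + 1) * r' ∧ r' = r + p * t := by
  obtain ⟨k, hk⟩ := (Polynomial.powAddExpansion (1 : R) ((p : R) ^ ω * r) p)
  obtain ⟨m, rfl⟩ := Nat.exists_eq_add_of_le hω
  refine ⟨r + p * (k * (p : R) ^ m * r ^ 2), k * (p : R) ^ m * r ^ 2, ?_, rfl⟩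
  rw [hk]
  ring

omit [Fact p.Prime] [Algebra ℤ_[p] R] in
/-- `(1 + p^ω r)^(p^m) = 1 + p^(ω+m) (r + p (…))` for `ω ≥ 2` -/
theorem pow_pp_lev {ω : ℕ} (hω : 2 ≤ ω) (r : R) (m : ℕ) :
    ∃ r' t : R, (1 + (p : R) ^ ω * r) ^ (p ^ m) = 1 + (p : R) ^ (ω + m) * r' ∧
      r' = r + p * t := by
  induction m with
  | zero => exact ⟨r, 0, by simp, by simp⟩
  | succ m ih =>
    obtain ⟨r', t, h1, h2⟩ := ih
    obtain ⟨r'', t', h3, h4⟩ := pow_p_lev (p := p) (show 2 ≤ ω + m by omega) r'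
    refine ⟨r'', t + t', ?_, ?_⟩
    · rw [pow_succ, pow_mul, h1, h3, add_assoc]
    · rw [h4, h2]; ring

/-- powers of `s (1 + p^ω r)` -/
theorem pow_gen {ω : ℕ} (hω : 2 ≤ ω) (s : ℤ_[p]) (r : R) (c m : ℕ) :
    ∃ (s' : ℤ_[p]) (r' t : R), (algebraMap ℤ_[p] R s * (1 + (p : R) ^ ω * r)) ^ (c * p ^ m) =
      algebraMap ℤ_[p] R s' * (1 + (p : R) ^ (ω + m) * r') ∧ r' = c * r + p * t := by
  obtain ⟨r', t, h1, h2⟩ := pow_pp_lev (p := p) hω r m
  obtain ⟨r'', t', h3, h4⟩ := pow_lev (p := p) (show 1 ≤ ω + m by omega) r' c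
  refine ⟨s ^ (c * p ^ m), r'', c * t + t', ?_, ?_⟩
  · rw [mul_pow, mul_comm c, pow_mul (1 + (p : R) ^ ω * r), h1, h3, map_pow]
  · rw [h4, h2]; ring

/-- products of elements `s_i (1 + p^W r_i)` -/
theorem prod_lev {W : ℕ} (hW : 1 ≤ W) {ι : Type*} (S : Finset ι) (s : ι → ℤ_[p]) (r : ι → R) :
    ∃ (s' : ℤ_[p]) (r' t : R), ∏ i ∈ S, (algebraMap ℤ_[p] R (s i) * (1 + (p : R) ^ W * r i)) =
      algebraMap ℤ_[p] R s' * (1 + (p : R) ^ W * r') ∧ r' = ∑ i ∈ S, r i + p * t := by
  classical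
  induction S using Finset.induction_on with
  | empty => exact ⟨1, 0, 0, by simp, by simp⟩
  | insert a S ha ih =>
    obtain ⟨s', r', t, h1, h2⟩ := ih
    obtain ⟨m, rfl⟩ := Nat.exists_eq_add_of_le hW
    refine ⟨s a * s', r a + r' + (p : R) ^ (1 + m) * r a * r', t + (p : R) ^ m * r a * r', ?_, ?_⟩
    · rw [Finset.prod_insert ha, h1, map_mul]; ring
    · rw [Finset.sum_insert ha, h2]; ring

theorem isUnit_one_add {W : ℕ} (hW : 1 ≤ W) (t : ℤ_[p]) : IsUnit (1 + (p : ℤ_[p]) ^ W * t) := by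
  rw [PadicInt.isUnit_iff]
  have h1 : ‖(p : ℤ_[p]) ^ W * t‖ < 1 := by
    rw [← PadicInt.mem_nonunits] 
    intro h
    have h2 : IsUnit (p : ℤ_[p]) := by
      obtain ⟨m, rfl⟩ := Nat.exists_eq_add_of_le hW
      exact isUnit_of_mul_isUnit_left (y := (p : ℤ_[p]) ^ m * t) (by
        convert h using 1; ring)
    exact PadicInt.prime_p.not_isUnit h2
  have h3 : ‖(1 : ℤ_[p]) + (p : ℤ_[p]) ^ W * t‖ = max ‖(1 : ℤ_[p])‖ ‖(p : ℤ_[p]) ^ W * t‖ :=
    PadicInt.norm_add_eq_max_of_ne (by rw [norm_one]; exact h1.ne')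
  rw [h3, norm_one, max_eq_left h1.le]

variable (b : Module.Basis (Fin 5) ℤ_[p] R) (hb : b 0 = 1)

include hb in
/-- If all coordinates but the first are divisible by `p ^ j`, then the element is a scalar modulo
`p ^ j`. -/
theorem scalar_of_dvd {j : ℕ} {x : R} (h : ∀ k : Fin 4, (p : ℤ_[p]) ^ j ∣ b.repr x k.succ) :
    ∃ (t : ℤ_[p]) (r : R), x = algebraMap ℤ_[p] R t + (p : R) ^ j * r := by
  choose u hu using h
  refine ⟨b.repr x 0, ∑ k : Fin 4, u k • b k.succ, ?_⟩
  conv_lhs => rw [← b.sum_repr x]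
  rw [Fin.sum_univ_succ, hb, Finset.mul_sum]
  congr 1
  · rw [Algebra.smul_def, mul_one]
  · refine Finset.sum_congr rfl fun k _ => ?_
    rw [hu, Algebra.smul_def, Algebra.smul_def, map_mul, map_pow, map_natCast, mul_assoc]

include hb in
theorem dvd_of_scalar {j : ℕ} {t : ℤ_[p]} {r : R} (k : Fin 4) :
    (p : ℤ_[p]) ^ j ∣ b.repr (algebraMap ℤ_[p] R t + (p : R) ^ j * r) k.succ := by
  have h1 : algebraMap ℤ_[p] R t = t • b 0 := by rw [hb, Algebra.smul_def, mul_one]
  have h2 : (p : R) ^ j * r = ((p : ℤ_[p]) ^ j) • r := by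
    rw [Algebra.smul_def, map_pow, map_natCast]
  rw [h1, h2, map_add, map_smul, map_smul, Finsupp.add_apply, Finsupp.smul_apply,
    Finsupp.smul_apply, Module.Basis.repr_self, Finsupp.single_eq_of_ne (Fin.succ_ne_zero k),
    smul_zero, zero_add, smul_eq_mul]
  exact dvd_mul_right _ _

/-- A state of the elimination procedure. -/
structure State (y : Fin 5 → R) (n : ℕ) where
  /-- the exponent vectors -/
  A : Fin 5 → Fin 5 → ℕ
  /-- the levels -/
  ω : Fin 5 → ℕ
  /-- the scalars -/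
  s : Fin 5 → ℤ_[p]
  /-- the remainders -/
  r : Fin 5 → R
  hdet : ¬ (p : ℤ) ∣ (Matrix.of fun i j => (A i j : ℤ)).det
  hω : ∀ i, 2 ≤ ω i
  hsum : n ≤ ∑ i, ω i
  hV : ∀ i, ∏ j, y j ^ A i j = algebraMap ℤ_[p] R (s i) * (1 + (p : R) ^ (ω i) * r i)

include hb in
theorem step {y : Fin 5 → R} {n : ℕ} (S : State (p := p) y n) :
    Nonempty (State (p := p) y (n + 1)) := by
  classical
  -- the reductions of the remainders
  let f : (Fin 5 → ZMod p) →ₗ[ZMod p] (Fin 4 → ZMod p) :=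
    { toFun := fun c k => ∑ i, c i * PadicInt.toZMod (b.repr (S.r i) k.succ)
      map_add' := fun c c' => by
        funext k
        simp only [Pi.add_apply, add_mul, Finset.sum_add_distrib]
      map_smul' := fun a c => by
        funext k
        simp only [Pi.smul_apply, smul_eq_mul, mul_assoc, Finset.mul_sum, RingHom.id_apply] }
  have hker : LinearMap.ker f ≠ ⊥ := by
    apply LinearMap.ker_ne_bot_of_finrank_lt
    simp
  obtain ⟨c, hc, hc0⟩ := Submodule.exists_mem_ne_zero_of_ne_bot hker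
  have hsup : (Finset.univ.filter fun i => c i ≠ 0).Nonempty := by
    by_contra hcon
    rw [Finset.not_nonempty_iff_eq_empty, Finset.filter_eq_empty_iff] at hcon
    apply hc0
    funext i
    have := hcon (Finset.mem_univ i)
    simpa using this
  obtain ⟨i₀, hi₀, hmax⟩ := Finset.exists_max_image _ S.ω hsup
  have hci₀ : c i₀ ≠ 0 := (Finset.mem_filter.mp hi₀).2
  set W := S.ω i₀ with hW
  have hle : ∀ i, c i ≠ 0 → S.ω i ≤ W := fun i hi =>
    hmax i (Finset.mem_filter.mpr ⟨Finset.mem_univ _, hi⟩)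
  let e : Fin 5 → ℕ := fun i => (c i).val * p ^ (W - S.ω i)
  -- powers
  have hpow : ∀ i, ∃ (s' : ℤ_[p]) (r' t : R),
      (∏ j, y j ^ S.A i j) ^ (e i) = algebraMap ℤ_[p] R s' * (1 + (p : R) ^ W * r') ∧
      r' = ((c i).val : R) * S.r i + p * t := by
    intro i
    by_cases hi : c i = 0
    · refine ⟨1, 0, 0, ?_, ?_⟩
      · simp only [e, hi, ZMod.val_zero, zero_mul, pow_zero]; simp
      · simp [hi]
    · obtain ⟨s', r', t, h1, h2⟩ := pow_gen (S.hω i) (S.s i) (S.r i) (c i).val (W - S.ω i)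
      refine ⟨s', r', t, ?_, h2⟩
      rw [S.hV i, h1, Nat.add_sub_cancel' (hle i hi)]
  choose s' r' t hs hr using hpow
  obtain ⟨s'', r'', t'', h1, h2⟩ := prod_lev (p := p) (show 1 ≤ W by have := S.hω i₀; omega)
    Finset.univ s' r'
  -- the new remainder is a scalar modulo `p`
  have hdvd : ∀ k : Fin 4, (p : ℤ_[p]) ^ 1 ∣ b.repr r'' k.succ := by
    intro k
    have h3 : r'' = ∑ i, ((c i).val : ℤ_[p]) • S.r i + ((p : ℤ_[p])) • (∑ i, t i + t'') := by
      rw [h2]
      simp only [hr, Finset.sum_add_distrib, Algebra.smul_def, map_natCast, ← Finset.mul_sum]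
      ring
    rw [h3, map_add, map_sum]
    simp only [map_smul, Finsupp.add_apply, Finsupp.finsetSum_apply, Finsupp.smul_apply, smul_eq_mul]
    rw [pow_one]
    refine dvd_add ?_ (dvd_mul_right _ _)
    rw [← Ideal.mem_span_singleton, ← PadicInt.maximalIdeal_eq_span_p, ← PadicInt.ker_toZMod,
      RingHom.mem_ker, map_sum]
    have h4 := congrFun hc k
    simp only [f, LinearMap.coe_mk, AddHom.coe_mk, Pi.zero_apply] at h4
    rw [← h4]
    refine Finset.sum_congr rfl fun i _ => ?_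
    rw [map_mul, map_natCast, ZMod.natCast_zmod_val]
  obtain ⟨t₁, r₁, h3⟩ := scalar_of_dvd b hb hdvd
  obtain ⟨v, hv⟩ := isUnit_one_add (p := p) (show 1 ≤ W by have := S.hω i₀; omega) t₁
  have hnew : ∏ i, (∏ j, y j ^ S.A i j) ^ (e i) =
      algebraMap ℤ_[p] R (s'' * (1 + (p : ℤ_[p]) ^ W * t₁)) *
        (1 + (p : R) ^ (W + 1) * (algebraMap ℤ_[p] R ((v⁻¹ : ℤ_[p]ˣ) : ℤ_[p]) * r₁)) := by
    rw [Finset.prod_congr rfl fun i _ => hs i, h1, h3]
    have h4 : algebraMap ℤ_[p] R (1 + (p : ℤ_[p]) ^ W * t₁) *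
        algebraMap ℤ_[p] R ((v⁻¹ : ℤ_[p]ˣ) : ℤ_[p]) = 1 := by
      rw [← map_mul, ← hv, Units.mul_inv, map_one]
    have h5 : algebraMap ℤ_[p] R (1 + (p : ℤ_[p]) ^ W * t₁) =
        1 + (p : R) ^ W * algebraMap ℤ_[p] R t₁ := by
      rw [map_add, map_one, map_mul, map_pow, map_natCast]
    rw [map_mul]
    linear_combination (-(algebraMap ℤ_[p] R s'')) * h5 +
      (-(algebraMap ℤ_[p] R s'' * (p : R) ^ (W + 1) * r₁)) * h4
  refine ⟨{
    A := Function.update S.A i₀ (fun j => ∑ i, e i * S.A i j)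
    ω := Function.update S.ω i₀ (W + 1)
    s := Function.update S.s i₀ (s'' * (1 + (p : ℤ_[p]) ^ W * t₁))
    r := Function.update S.r i₀ (algebraMap ℤ_[p] R ((v⁻¹ : ℤ_[p]ˣ) : ℤ_[p]) * r₁)
    hdet := ?_
    hω := ?_
    hsum := ?_
    hV := ?_ }⟩
  · have h4 : (Matrix.of fun i j => ((Function.update S.A i₀ (fun j => ∑ i, e i * S.A i j)) i j : ℤ)) =
        (Matrix.of fun i j => (S.A i j : ℤ)).updateRow i₀
          (∑ k, (e k : ℤ) • (Matrix.of fun i j => (S.A i j : ℤ)) k) := by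
      ext i j
      by_cases hi : i = i₀
      · subst hi
        simp only [Matrix.of_apply, Function.update_self, Matrix.updateRow_self, Finset.sum_apply,
          Pi.smul_apply, smul_eq_mul]
        push_cast
        rfl
      · rw [Matrix.updateRow_ne hi]
        simp only [Matrix.of_apply, Function.update_of_ne hi]
    rw [h4, Matrix.det_updateRow_sum]
    intro hdvd2
    rw [smul_eq_mul] at hdvd2
    have hpp : Prime (p : ℤ) := Nat.prime_iff_prime_int.mp (Fact.out : p.Prime)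
    rcases hpp.dvd_or_dvd hdvd2 with h5 | h5
    · have h6 : e i₀ = (c i₀).val := by
        simp only [e, hW, Nat.sub_self, pow_zero, mul_one]
      rw [h6, Int.natCast_dvd_natCast] at h5
      have h7 : (c i₀).val < p := ZMod.val_lt _
      have h8 : (c i₀).val ≠ 0 := fun h => hci₀ ((ZMod.val_eq_zero _).mp h)
      exact h8 (Nat.eq_zero_of_dvd_of_lt h5 h7)
    · exact S.hdet h5
  · intro i
    by_cases hi : i = i₀
    · subst hi
      rw [Function.update_self]
      have := S.hω i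
      omega
    · rw [Function.update_of_ne hi]; exact S.hω i
  · have h4 := S.hsum
    rw [← Finset.add_sum_erase _ _ (Finset.mem_univ i₀)] at h4 ⊢
    rw [Function.update_self]
    have h5 : ∑ x ∈ Finset.univ.erase i₀, Function.update S.ω i₀ (W + 1) x =
        ∑ x ∈ Finset.univ.erase i₀, S.ω x :=
      Finset.sum_congr rfl fun x hx => Function.update_of_ne (Finset.mem_erase.mp hx).1 _ _
    rw [h5]
    omega
  · intro i
    by_cases hi : i = i₀
    · subst hi
      simp only [Function.update_self]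
      rw [← hnew]
      simp only [← Finset.prod_pow, ← pow_mul]
      rw [Finset.prod_comm]
      refine Finset.prod_congr rfl fun j _ => ?_
      rw [Finset.prod_pow_eq_pow_sum]
      congr 1
      exact Finset.sum_congr rfl fun k _ => mul_comm _ _
    · simp only [Function.update_of_ne hi]
      exact S.hV i

include hb in
theorem exists_state {y : Fin 5 → R} (hy : ∀ j, ∃ r, y j = 1 + (p : R) ^ 2 * r) (n : ℕ) :
    Nonempty (State (p := p) y n) := by
  induction n with
  | zero =>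
    choose r hr using hy
    refine ⟨{
      A := fun i j => if i = j then 1 else 0
      ω := fun _ => 2
      s := fun _ => 1
      r := r
      hdet := ?_
      hω := fun _ => le_rfl
      hsum := Nat.zero_le _
      hV := ?_ }⟩
    · have h : (Matrix.of fun i j : Fin 5 => (((if i = j then 1 else 0 : ℕ)) : ℤ)) = 1 := by
        ext i j
        simp [Matrix.one_apply]
      rw [h, Matrix.det_one]
      intro h1
      exact (Nat.prime_iff_prime_int.mp (Fact.out : p.Prime)).not_isUnit (isUnit_of_dvd_one h1)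
    · intro i
      rw [map_one, one_mul, ← hr]
      rw [Finset.prod_eq_single i]
      · simp
      · intro j _ hj
        rw [if_neg (Ne.symm hj), pow_zero]
      · intro h; exact absurd (Finset.mem_univ _) h
  | succ n ih =>
    obtain ⟨S⟩ := ih
    exact step b hb S

include hb in
/-- For every `J` there is a primitive exponent vector such that the product is a scalar modulo
`p ^ J`. -/
theorem exists_relation {y : Fin 5 → R} (hy : ∀ j, ∃ r, y j = 1 + (p : R) ^ 2 * r) (J : ℕ) :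
    ∃ d : Fin 5 → ℕ, (∃ j, ¬ p ∣ d j) ∧ ∃ (s : ℤ_[p]) (r : R),
      ∏ j, y j ^ d j = algebraMap ℤ_[p] R s + (p : R) ^ J * r := by
  obtain ⟨S⟩ := exists_state b hb hy (5 * J)
  have hex : ∃ i, J ≤ S.ω i := by
    by_contra hcon
    push Not at hcon
    have h1 : ∑ i, S.ω i < ∑ _i : Fin 5, J :=
      Finset.sum_lt_sum_of_nonempty Finset.univ_nonempty fun i _ => hcon i
    have h2 := S.hsum
    simp only [Finset.sum_const, Finset.card_univ, Fintype.card_fin, smul_eq_mul] at h1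
    omega
  obtain ⟨i, hi⟩ := hex
  refine ⟨S.A i, ?_, S.s i, algebraMap ℤ_[p] R (S.s i) * (p : R) ^ (S.ω i - J) * S.r i, ?_⟩
  · by_contra hcon
    push Not at hcon
    apply S.hdet
    choose u hu using hcon
    have h1 : (Matrix.of fun i j => (S.A i j : ℤ)) =
        (Matrix.of fun i j => (S.A i j : ℤ)).updateRow i ((p : ℤ) • fun j => (u j : ℤ)) := by
      ext k j
      by_cases hk : k = i
      · subst hk
        rw [Matrix.updateRow_self]
        simp only [Matrix.of_apply, Pi.smul_apply, smul_eq_mul]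
        rw [hu j]; push_cast; rfl
      · rw [Matrix.updateRow_ne hk]
    rw [h1, Matrix.det_updateRow_smul]
    exact dvd_mul_right _ _
  · rw [S.hV i]
    have h1 : (p : R) ^ S.ω i = (p : R) ^ J * (p : R) ^ (S.ω i - J) := by
      rw [← pow_add, Nat.add_sub_cancel' hi]
    rw [h1]; ring

end levels

end Pool.Agent.H440R3
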