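import Mathlib
import Pool.Agent.H440R3.Alg

set_option autoImplicit false

/-!
# `rank (L ∩ B) ≤ dim B` for all algebraic subgroups `B`
-/

namespace Pool.Agent.H440R3

namespace Pts

variable (P : Pts) (p : ℕ) [Fact p.Prime] (Ψ : AddSubgroup (Emb p KK → ℤ))

/-- The vectors of `V₀ ≅ ℚ⁴` killed by all characters of `Ψ`. -/
def CC : Submodule ℚ (Fin 4 → ℚ) where
  carrier := {v | ∀ χ ∈ Ψ, ∀ r : Fin 5, ∑ τ, (χ τ : ℚ) * ext5 v ((pm p τ).symm r) = 0}
  add_mem' := by
    intro v w hv hw χ hχ r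
    simp only [ext5_add, mul_add, Finset.sum_add_distrib, hv χ hχ r, hw χ hχ r, add_zero]
  zero_mem' := by
    intro χ _ r
    refine Finset.sum_eq_zero fun τ _ => ?_
    have : ext5 (0 : Fin 4 → ℚ) ((pm p τ).symm r) = 0 := by
      have h := ext5_add (0 : Fin 4 → ℚ) 0 ((pm p τ).symm r)
      rw [add_zero] at h
      linarith
    rw [this, mul_zero]
  smul_mem' := by
    intro s v hv χ hχ r
    have h : ∀ τ, (χ τ : ℚ) * ext5 (s • v) ((pm p τ).symm r) =
        s * ((χ τ : ℚ) * ext5 v ((pm p τ).symm r)) := by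
      intro τ
      rw [ext5_smul, smul_eq_mul]; ring
    simp only [h, ← Finset.mul_sum, hv χ hχ r, mul_zero]

/-- The matrices whose columns lie in `CC`. -/
def DD : Submodule ℚ (Idx → ℚ) where
  carrier := {c | ∀ j, (fun i => fill c i j) ∈ CC p Ψ}
  add_mem' := by
    intro c c' hc hc' j
    have h : (fun i => fill (c + c') i j) = (fun i => fill c i j) + fun i => fill c' i j := by
      funext i; exact fill_add c c' i j
    rw [h]
    exact (CC p Ψ).add_mem (hc j) (hc' j)
  zero_mem' := by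
    intro j
    have h : (fun i => fill (0 : Idx → ℚ) i j) = 0 := by
      funext i; exact fill_zero i j
    rw [h]
    exact (CC p Ψ).zero_mem
  smul_mem' := by
    intro s c hc j
    have h : (fun i => fill (s • c) i j) = s • fun i => fill c i j := by
      funext i; exact fill_smul s c i j
    rw [h]
    exact (CC p Ψ).smul_mem s (hc j)

theorem mem_DD (c : Idx → ℤ)
    (h : P.Y (Multiplicative.ofAdd c) ∈ ratPoints p KK Ψ) : (fun x => (c x : ℚ)) ∈ DD p Ψ := by
  intro j χ hχ r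
  have h1 : charValue p KK χ (P.Y (Multiplicative.ofAdd c)) = 1 := h χ hχ
  rw [charValue_Y] at h1
  have h2 : Function.Injective (Units.map (τ₀ p : KK →* AlgebraicClosure ℚ_[p])) :=
    Units.map_injective (τ₀ p).toRingHom.injective
  have h3 := h2 (h1.trans (map_one _).symm)
  have h4 := congrFun (congrFun (P.indep (fun r j => ∑ τ, χ τ * expo c ((pm p τ).symm r) j) h3) r) j
  have h5 : ((∑ τ, χ τ * expo c ((pm p τ).symm r) j : ℤ) : ℚ) = 0 := by
    rw [show (∑ τ, χ τ * expo c ((pm p τ).symm r) j : ℤ) = 0 from h4]; simp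
  rw [← h5]
  push_cast
  refine Finset.sum_congr rfl fun τ _ => ?_
  congr 1
  have h6 := ext5_map (Int.castAddHom ℚ) (fun k => fill c k j) ((pm p τ).symm r)
  unfold expo
  rw [show ((ext5 (fun k => fill c k j) ((pm p τ).symm r) : ℤ) : ℚ) =
    Int.castAddHom ℚ (ext5 (fun k => fill c k j) ((pm p τ).symm r)) from rfl, h6]
  congr 1
  funext k
  exact (fill_map (fun z : ℤ => (z : ℚ)) c k j).symm

theorem rk_inf_le : rk ↥(P.L ⊓ ratPoints p KK Ψ) ≤ Module.finrank ℚ (DD p Ψ) := by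
  unfold rk
  let g : ↥(P.L ⊓ ratPoints p KK Ψ) → (Idx → ℤ) := fun x =>
    Multiplicative.toAdd (P.eqL.symm ⟨x.1, x.2.1⟩)
  have hg : ∀ x, P.Y (Multiplicative.ofAdd (g x)) = x.1 := by
    intro x
    have h := P.eqL.apply_symm_apply ⟨x.1, x.2.1⟩
    exact congrArg Subtype.val h
  have hgadd : ∀ x y, g (x * y) = g x + g y := by
    intro x y
    have h1 : Multiplicative.ofAdd (g (x * y)) =
        Multiplicative.ofAdd (g x) * Multiplicative.ofAdd (g y) := by
      apply P.Y_injective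
      rw [hg, map_mul, hg, hg]; rfl
    exact h1
  let f : Additive ↥(P.L ⊓ ratPoints p KK Ψ) →+ DD p Ψ := AddMonoidHom.mk'
    (fun x => ⟨fun i => ((g x.toMul i : ℤ) : ℚ), P.mem_DD p Ψ (g x.toMul) (by
      rw [hg]; exact x.toMul.2.2)⟩) (by
      intro x y
      apply Subtype.ext
      funext i
      show ((g (x + y).toMul i : ℤ) : ℚ) = (g x.toMul i : ℚ) + (g y.toMul i : ℚ)
      rw [toMul_add, hgadd]
      simp)
  refine finrank_int_le f ?_
  intro x y hxy
  have h1 : g x.toMul = g y.toMul := by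
    funext i
    have := congrFun (congrArg Subtype.val hxy) i
    have h2 : ((g x.toMul i : ℤ) : ℚ) = ((g y.toMul i : ℤ) : ℚ) := this
    exact_mod_cast h2
  have h2 : (x.toMul : ↥(P.L ⊓ ratPoints p KK Ψ)).1 = (y.toMul : ↥(P.L ⊓ ratPoints p KK Ψ)).1 := by
    rw [← hg, ← hg, h1]
  exact Additive.toMul.injective (Subtype.ext h2)

/-- The linear map `(w_r) ↦ (τ ↦ ∑_r w_r(τ⁻¹ r))`. -/
noncomputable def Th : (Fin 4 → CC p Ψ) →ₗ[ℚ] (Emb p KK → ℚ) where
  toFun w τ := ∑ r : Fin 4, ext5 (w r : Fin 4 → ℚ) ((pm p τ).symm r.castSucc)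
  map_add' w w' := by
    funext τ
    simp only [Pi.add_apply, Submodule.coe_add, ext5_add, Finset.sum_add_distrib]
  map_smul' s w := by
    funext τ
    simp only [Pi.smul_apply, Submodule.coe_smul, ext5_smul, ← Finset.smul_sum, RingHom.id_apply]

theorem Th_injective : Function.Injective (Th p Ψ) := by
  rw [← LinearMap.ker_eq_bot, LinearMap.ker_eq_bot']
  intro w hw
  have key : ∀ (r₀ : Fin 4) (i j : Fin 5), i ≠ j →
      ext5 (w r₀ : Fin 4 → ℚ) i = ext5 (w r₀ : Fin 4 → ℚ) j := by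
    intro r₀ i j hij
    -- a permutation `s` with `s (castSucc r₀) = i`, `s last = j`
    obtain ⟨s, hs1, hs2⟩ : ∃ s : Equiv.Perm (Fin 5), s r₀.castSucc = i ∧ s (Fin.last 4) = j := by
      have hne : r₀.castSucc ≠ Fin.last 4 := Fin.castSucc_ne_last r₀
      refine ⟨(Equiv.swap r₀.castSucc i).trans
        (Equiv.swap (Equiv.swap r₀.castSucc i (Fin.last 4)) j), ?_, ?_⟩
      · rw [Equiv.trans_apply, Equiv.swap_apply_left, Equiv.swap_apply_of_ne_of_ne]
        · intro h
          have h2 : Equiv.swap r₀.castSucc i r₀.castSucc = Equiv.swap r₀.castSucc i (Fin.last 4) := by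
            rw [Equiv.swap_apply_left]; exact h
          exact hne ((Equiv.swap r₀.castSucc i).injective h2)
        · exact hij
      · rw [Equiv.trans_apply, Equiv.swap_apply_left]
    obtain ⟨τ, hτ⟩ := exists_emb p s.symm
    obtain ⟨τ', hτ'⟩ := exists_emb p (s.trans (Equiv.swap i j)).symm
    have h1 := congrFun hw τ
    have h2 := congrFun hw τ'
    simp only [Th, LinearMap.coe_mk, AddHom.coe_mk, hτ, hτ', Equiv.symm_symm,
      Pi.zero_apply] at h1 h2
    rw [← Finset.add_sum_erase _ _ (Finset.mem_univ r₀)] at h1 h2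
    have h3 : ∀ r ∈ Finset.univ.erase r₀,
        ext5 (w r : Fin 4 → ℚ) ((s.trans (Equiv.swap i j)) r.castSucc) =
        ext5 (w r : Fin 4 → ℚ) (s r.castSucc) := by
      intro r hr
      have hr' : r ≠ r₀ := (Finset.mem_erase.mp hr).1
      rw [Equiv.trans_apply, Equiv.swap_apply_of_ne_of_ne]
      · intro h
        rw [← hs1] at h
        exact hr' (Fin.castSucc_injective _ (s.injective h))
      · intro h
        rw [← hs2] at h
        exact (Fin.castSucc_ne_last r) (s.injective h)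
    rw [Finset.sum_congr rfl h3] at h2
    rw [Equiv.trans_apply, hs1, Equiv.swap_apply_left] at h2
    rw [hs1] at h1
    linarith
  funext r₀
  apply Subtype.ext
  have hconst : ∀ i : Fin 5, ext5 (w r₀ : Fin 4 → ℚ) i = ext5 (w r₀ : Fin 4 → ℚ) (Fin.last 4) := by
    intro i
    by_cases h : i = Fin.last 4
    · rw [h]
    · exact key r₀ i _ h
  have hsum := ext5_sum (w r₀ : Fin 4 → ℚ)
  simp only [hconst] at hsum
  rw [Finset.sum_const, Finset.card_univ, Fintype.card_fin] at hsum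
  have hz : ext5 (w r₀ : Fin 4 → ℚ) (Fin.last 4) = 0 := by
    simpa using hsum
  funext k
  have h1 := hconst k.castSucc
  rw [ext5_castSucc, hz] at h1
  exact h1

/-- The `ℚ`-span of the characters. -/
def PQ : Submodule ℚ (Emb p KK → ℚ) :=
  Submodule.span ℚ ((fun (χ : Emb p KK → ℤ) τ => (χ τ : ℚ)) '' (Ψ : Set (Emb p KK → ℤ)))

theorem finrank_Psi_le : Module.finrank ℤ Ψ ≤ Module.finrank ℚ (PQ p Ψ) := by
  let f : Ψ →+ PQ p Ψ := AddMonoidHom.mk'
    (fun χ => ⟨fun τ => ((χ : Emb p KK → ℤ) τ : ℚ),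
      Submodule.subset_span ⟨(χ : Emb p KK → ℤ), χ.2, rfl⟩⟩) (by
      intro χ χ'
      apply Subtype.ext
      funext τ
      show (((χ + χ' : Ψ) : Emb p KK → ℤ) τ : ℚ) =
        ((χ : Emb p KK → ℤ) τ : ℚ) + ((χ' : Emb p KK → ℤ) τ : ℚ)
      simp)
  refine finrank_int_le f ?_
  intro χ χ' h
  apply Subtype.ext
  funext τ
  have := congrFun (congrArg Subtype.val h) τ
  have h2 : (((χ : Emb p KK → ℤ) τ : ℤ) : ℚ) = (((χ' : Emb p KK → ℤ) τ : ℤ) : ℚ) := this
  exact_mod_cast h2

theorem orth (u v : Emb p KK → ℚ) (hu : u ∈ PQ p Ψ) (hv : v ∈ LinearMap.range (Th p Ψ)) :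
    ∑ τ, u τ * v τ = 0 := by
  obtain ⟨w, rfl⟩ := hv
  induction hu using Submodule.span_induction with
  | mem x hx =>
    obtain ⟨χ, hχ, rfl⟩ := hx
    simp only [Th, LinearMap.coe_mk, AddHom.coe_mk, Finset.mul_sum]
    rw [Finset.sum_comm]
    refine Finset.sum_eq_zero fun r _ => ?_
    exact (w r).2 χ hχ r.castSucc
  | zero => simp
  | add x y _ _ hx hy =>
    simp only [Pi.add_apply, add_mul, Finset.sum_add_distrib, hx, hy, add_zero]
  | smul a x _ hx =>
    simp only [Pi.smul_apply, smul_eq_mul, mul_assoc, ← Finset.mul_sum, hx, mul_zero]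

theorem dim_le : 4 * Module.finrank ℚ (CC p Ψ) + Module.finrank ℤ Ψ ≤ Module.finrank ℚ KK := by
  have hdisj : Disjoint (PQ p Ψ) (LinearMap.range (Th p Ψ)) := by
    rw [Submodule.disjoint_def]
    intro u hu hv
    have h := orth p Ψ u u hu hv
    have h2 : ∀ τ ∈ Finset.univ, u τ * u τ = 0 :=
      (Finset.sum_eq_zero_iff_of_nonneg (fun τ _ => mul_self_nonneg (u τ))).mp h
    funext τ
    exact mul_self_eq_zero.mp (h2 τ (Finset.mem_univ _))
  have h1 := Submodule.finrank_add_finrank_le_of_disjoint hdisj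
  rw [LinearMap.finrank_range_of_inj (Th_injective p Ψ), Module.finrank_pi_fintype,
    Finset.sum_const, Finset.card_univ, Fintype.card_fin, smul_eq_mul,
    Module.finrank_fintype_fun_eq_card] at h1
  have h2 : Fintype.card (Emb p KK) = Module.finrank ℚ KK := AlgHom.card ℚ KK _
  rw [h2] at h1
  have h3 := finrank_Psi_le p Ψ
  omega

theorem rank_condition :
    rk ↥(P.L ⊓ ratPoints p KK Ψ) + Module.finrank ℤ Ψ ≤ Module.finrank ℚ KK := by
  have h1 := P.rk_inf_le p Ψ
  have h2 := finrank_fill_le (CC p Ψ) (DD p Ψ) (fun c hc => hc)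
  have h3 := dim_le p Ψ
  omega

end Pts

end Pool.Agent.H440R3
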