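import Mathlib
import Pool.Agent.H440R3.Levels
import Pool.Agent.H440R3.Quintic

set_option autoImplicit false

/-!
# The ring `ℤ_p[X] / (X ^ 5 - 25 X + 5)`
-/

namespace Pool.Agent.H440R3

section extra

variable {p : ℕ} [Fact p.Prime] {R : Type*} [CommRing R] [Algebra ℤ_[p] R]
  (b : Module.Basis (Fin 5) ℤ_[p] R) (hb : b 0 = 1)

include b in
/-- Powers of units become `1` modulo `p²`. -/
theorem exists_pow_one {z : R} (hz : IsUnit z) : ∃ M : ℕ, 0 < M ∧ ∃ r : R, z ^ M = 1 + (p : R) ^ 2 * r := by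
  let g : ℕ → (Fin 5 → ZMod (p ^ 2)) := fun n k => PadicInt.toZModPow 2 (b.repr (z ^ n) k)
  have key : ∀ m n : ℕ, m < n → g m = g n →
      ∃ M : ℕ, 0 < M ∧ ∃ r : R, z ^ M = 1 + (p : R) ^ 2 * r := by
    intro m n hmn hg
    refine ⟨n - m, by omega, ?_⟩
    have h1 : ∀ k : Fin 5, (p : ℤ_[p]) ^ 2 ∣ b.repr (z ^ n - z ^ m) k := by
      intro k
      rw [map_sub, Finsupp.sub_apply, ← Ideal.mem_span_singleton, ← PadicInt.ker_toZModPow,
        RingHom.mem_ker, map_sub, sub_eq_zero]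
      exact (congrFun hg k).symm
    choose u hu using h1
    have h2 : z ^ n - z ^ m = (p : R) ^ 2 * ∑ k, u k • b k := by
      conv_lhs => rw [← b.sum_repr (z ^ n - z ^ m)]
      rw [Finset.mul_sum]
      refine Finset.sum_congr rfl fun k _ => ?_
      rw [hu, Algebra.smul_def, Algebra.smul_def, map_mul, map_pow, map_natCast, mul_assoc]
    obtain ⟨v, hv⟩ := hz
    have h3 : z ^ m * ((v⁻¹ : Rˣ) : R) ^ m = 1 := by
      rw [← mul_pow, ← hv, Units.mul_inv, one_pow]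
    refine ⟨((v⁻¹ : Rˣ) : R) ^ m * ∑ k, u k • b k, ?_⟩
    have h4 : z ^ n = z ^ m * z ^ (n - m) := by rw [← pow_add]; congr 1; omega
    rw [h4] at h2
    linear_combination ((v⁻¹ : Rˣ) : R) ^ m * h2 + (1 - z ^ (n - m)) * h3
  obtain ⟨m, n, hne, hg⟩ := Finite.exists_ne_map_eq_of_infinite g
  rcases lt_or_gt_of_ne hne with h | h
  · exact key m n h hg
  · exact key n m h hg.symm

omit [Fact p.Prime] [Algebra ℤ_[p] R] in
theorem one_add_pow (J : ℕ) (r : R) (n : ℕ) :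
    ∃ r' : R, (1 + (p : R) ^ J * r) ^ n = 1 + (p : R) ^ J * r' := by
  obtain ⟨k, hk⟩ := sub_dvd_pow_sub_pow (1 + (p : R) ^ J * r) 1 n
  refine ⟨r * k, ?_⟩
  rw [one_pow] at hk
  linear_combination hk

include b in
/-- A common exponent for finitely many units. -/
theorem exists_pow_one_all {z : Fin 5 → R} (hz : ∀ j, IsUnit (z j)) :
    ∃ M : ℕ, 0 < M ∧ ∀ j, ∃ r : R, z j ^ M = 1 + (p : R) ^ 2 * r := by
  choose M hM h using fun j => exists_pow_one b (hz j)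
  refine ⟨∏ j, M j, Finset.prod_pos fun j _ => hM j, fun j => ?_⟩
  rw [← Finset.mul_prod_erase _ _ (Finset.mem_univ j), pow_mul]
  obtain ⟨r, hr⟩ := h j
  rw [hr]
  exact one_add_pow 2 r _

theorem exists_not_dvd {x : ℤ_[p]} (hx : x ≠ 0) : ∃ J : ℕ, ¬ (p : ℤ_[p]) ^ J ∣ x := by
  by_contra hcon
  push Not at hcon
  apply hx
  rw [← PadicInt.ext_of_toZModPow]
  intro n
  rw [map_zero, ← RingHom.mem_ker, PadicInt.ker_toZModPow, Ideal.mem_span_singleton]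
  exact hcon n

include hb in
/-- If the last of the five elements is not a scalar, then in a relation modulo a high power of `p`
the first four exponents cannot all be divisible by a high power of `p`. -/
theorem exists_J {y : Fin 5 → R} (hy : ∀ j, ∃ r, y j = 1 + (p : R) ^ 2 * r)
    (hlast : ∀ s : ℤ_[p], y (Fin.last 4) ≠ algebraMap ℤ_[p] R s) :
    ∃ J₀ : ℕ, 1 ≤ J₀ ∧ ∀ d : Fin 5 → ℕ, (∃ j, ¬ p ∣ d j) →
      (∃ (s : ℤ_[p]) (r : R), ∏ j, y j ^ d j = algebraMap ℤ_[p] R s + (p : R) ^ J₀ * r) →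
      ∃ i : Fin 4, ¬ p ^ J₀ ∣ d i.castSucc := by
  have hex : ∃ k : Fin 4, b.repr (y (Fin.last 4)) k.succ ≠ 0 := by
    by_contra hcon
    push Not at hcon
    apply hlast (b.repr (y (Fin.last 4)) 0)
    conv_lhs => rw [← b.sum_repr (y (Fin.last 4))]
    rw [Fin.sum_univ_succ, hb, Algebra.smul_def, mul_one]
    simp only [hcon, zero_smul, Finset.sum_const_zero, add_zero]
  obtain ⟨k, hk⟩ := hex
  obtain ⟨J, hJ⟩ := exists_not_dvd hk
  have hJ' : ¬ (p : ℤ_[p]) ^ (J + 1) ∣ b.repr (y (Fin.last 4)) k.succ := fun h =>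
    hJ ((pow_dvd_pow _ (Nat.le_succ J)).trans h)
  refine ⟨J + 1, by omega, ?_⟩
  set J₀ := J + 1 with hJ₀
  intro d hd hrel
  by_contra hcon
  push Not at hcon
  choose u hu using hcon
  obtain ⟨s, r, hsr⟩ := hrel
  -- the last exponent is prime to `p`
  have hlastd : ¬ p ∣ d (Fin.last 4) := by
    intro h
    obtain ⟨j, hj⟩ := hd
    induction j using Fin.lastCases with
    | last => exact hj h
    | cast i =>
      apply hj
      rw [hu i]
      exact dvd_mul_of_dvd_left (dvd_pow_self p (by omega)) _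
  -- the first four factors
  have hfac : ∀ i : Fin 4, ∃ r' : R, y i.castSucc ^ d i.castSucc = 1 + (p : R) ^ J₀ * r' := by
    intro i
    obtain ⟨ri, hri⟩ := hy i.castSucc
    obtain ⟨r', t, h1, -⟩ := pow_pp_lev (p := p) (le_refl 2) ri J₀
    obtain ⟨r'', h2⟩ := one_add_pow (p := p) J₀ ((p : R) ^ 2 * r') (u i)
    refine ⟨r'', ?_⟩
    rw [hu i, pow_mul, hri, h1, ← h2]
    congr 1
    ring
  choose ρ hρ using hfac
  have hprod : ∃ ρ' : R, ∏ i : Fin 4, y i.castSucc ^ d i.castSucc = 1 + (p : R) ^ J₀ * ρ' := by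
    simp only [hρ]
    have : ∀ S : Finset (Fin 4), ∃ ρ' : R, ∏ i ∈ S, (1 + (p : R) ^ J₀ * ρ i) =
        1 + (p : R) ^ J₀ * ρ' := by
      intro S
      induction S using Finset.induction_on with
      | empty => exact ⟨0, by simp⟩
      | insert a S ha ih =>
        obtain ⟨ρ', h⟩ := ih
        exact ⟨ρ a + ρ' + (p : R) ^ J₀ * ρ a * ρ', by rw [Finset.prod_insert ha, h]; ring⟩
    exact this _
  obtain ⟨ρ', hρ'⟩ := hprod
  rw [Fin.prod_univ_castSucc, hρ'] at hsr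
  set Y := y (Fin.last 4) with hY
  set D := d (Fin.last 4) with hD
  have h1 : Y ^ D = algebraMap ℤ_[p] R s + (p : R) ^ J₀ * (r - ρ' * Y ^ D) := by
    linear_combination hsr
  have hp : p.Prime := Fact.out
  have hcop : Nat.Coprime D (p ^ J₀) :=
    (((Nat.Prime.coprime_iff_not_dvd hp).mpr hlastd).symm).pow_right J₀
  obtain ⟨D', -, hD'⟩ := Nat.exists_mul_mod_eq_one_of_coprime hcop
    (Nat.one_lt_pow (by omega) hp.one_lt)
  obtain ⟨m, hm⟩ : ∃ m, D * D' = 1 + p ^ J₀ * m := by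
    refine ⟨D * D' / p ^ J₀, ?_⟩
    have := Nat.mod_add_div (D * D') (p ^ J₀)
    rw [hD'] at this
    exact this.symm
  -- the `D'`-th power
  obtain ⟨q, hq⟩ : ∃ q : R, (algebraMap ℤ_[p] R s + (p : R) ^ J₀ * (r - ρ' * Y ^ D)) ^ D' =
      algebraMap ℤ_[p] R (s ^ D') + (p : R) ^ J₀ * q := by
    obtain ⟨q, hq⟩ := sub_dvd_pow_sub_pow
      (algebraMap ℤ_[p] R s + (p : R) ^ J₀ * (r - ρ' * Y ^ D)) (algebraMap ℤ_[p] R s) D'
    refine ⟨(r - ρ' * Y ^ D) * q, ?_⟩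
    rw [map_pow]
    linear_combination hq
  obtain ⟨q', hq'⟩ : ∃ q' : R, Y ^ (p ^ J₀ * m) = 1 + (p : R) ^ J₀ * q' := by
    obtain ⟨ri, hri⟩ := hy (Fin.last 4)
    obtain ⟨r', t, h2, -⟩ := pow_pp_lev (p := p) (le_refl 2) ri J₀
    obtain ⟨r'', h3⟩ := one_add_pow (p := p) J₀ ((p : R) ^ 2 * r') m
    refine ⟨r'', ?_⟩
    rw [pow_mul, hY, hri, h2, ← h3]
    congr 1
    ring
  have h2 : Y = algebraMap ℤ_[p] R (s ^ D') + (p : R) ^ J₀ * (q - Y * q') := by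
    have h3 : (Y ^ D) ^ D' = Y * Y ^ (p ^ J₀ * m) := by
      rw [← pow_mul, hm, pow_add, pow_one]
    rw [h1, hq, hq'] at h3
    linear_combination -h3
  apply hJ'
  have h3 := dvd_of_scalar b hb (j := J₀) (t := s ^ D') (r := q - Y * q') k
  rw [← h2] at h3
  exact h3

end extra

section ring

variable (p : ℕ) [Fact p.Prime]

/-- The ring `ℤ_p[X] / (X ^ 5 - 25 X + 5)`. -/
abbrev Rp : Type := AdjoinRoot (Φ ℤ_[p])

/-- The basis `1, x, x², x³, x⁴`. -/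
noncomputable def bRp : Module.Basis (Fin 5) ℤ_[p] (Rp p) :=
  (AdjoinRoot.powerBasisAux' monic_Phi).reindex (finCongr natDegree_Phi)

theorem bRp_zero : bRp p 0 = 1 := by
  unfold bRp
  rw [Module.Basis.reindex_apply]
  have h := (AdjoinRoot.powerBasis' (monic_Phi (R := ℤ_[p]))).basis_eq_pow
    ((finCongr natDegree_Phi).symm (0 : Fin 5))
  have h2 : (((finCongr (natDegree_Phi (R := ℤ_[p]))).symm (0 : Fin 5) : Fin _) : ℕ) = 0 := rfl
  rw [h2, pow_zero] at h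
  exact h

/-- The element `x - t` -/
noncomputable def zR (t : ℤ) : Rp p := AdjoinRoot.root (Φ ℤ_[p]) - (t : Rp p)

theorem root_rel : (AdjoinRoot.root (Φ ℤ_[p])) ^ 5 - 25 * (AdjoinRoot.root (Φ ℤ_[p])) + 5 = 0 := by
  have h := AdjoinRoot.eval₂_root (Φ ℤ_[p])
  rwa [eval₂_Phi] at h

theorem isUnit_zR {t : ℤ} (ht : ¬ (p : ℤ) ∣ t ^ 5 - 25 * t + 5) : IsUnit (zR p t) := by
  have h1 : IsUnit (((t ^ 5 - 25 * t + 5 : ℤ) : ℤ_[p])) := by
    rw [PadicInt.isUnit_iff]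
    by_contra hcon
    have h2 : ‖((t ^ 5 - 25 * t + 5 : ℤ) : ℤ_[p])‖ < 1 :=
      lt_of_le_of_ne (PadicInt.norm_le_one _) hcon
    rw [PadicInt.norm_int_lt_one_iff_dvd] at h2
    exact ht h2
  have h2 : IsUnit (((t ^ 5 - 25 * t + 5 : ℤ) : Rp p)) := by
    have := h1.map (algebraMap ℤ_[p] (Rp p))
    rwa [map_intCast] at this
  have h3 : zR p t * (AdjoinRoot.root (Φ ℤ_[p]) ^ 4 + AdjoinRoot.root (Φ ℤ_[p]) ^ 3 * t +
      AdjoinRoot.root (Φ ℤ_[p]) ^ 2 * t ^ 2 + AdjoinRoot.root (Φ ℤ_[p]) * t ^ 3 + t ^ 4 - 25) =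
      - ((t ^ 5 - 25 * t + 5 : ℤ) : Rp p) := by
    unfold zR
    push_cast
    linear_combination root_rel p
  exact isUnit_of_mul_isUnit_left (by rw [h3]; exact h2.neg)

end ring

end Pool.Agent.H440R3
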