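import Mathlib
import Pool.Agent.H440R3.Defs

set_option autoImplicit false

/-!
# Topology of `ℚ_p ⊗ K`
-/

namespace Pool.Agent.H440R3

open scoped TensorProduct
open NumberField Filter Topology

section topo

variable (p : ℕ) [Fact p.Prime] (K : Type) [Field K] [NumberField K]

/-- A `ℚ_p`-basis of `ℚ_p ⊗ K` coming from an integral basis. -/
noncomputable def bK : Module.Basis (Module.Free.ChooseBasisIndex ℤ (𝓞 K)) ℚ_[p] (Kp p K) :=
  (integralBasis K).baseChange ℚ_[p]

theorem bK_apply (l : Module.Free.ChooseBasisIndex ℤ (𝓞 K)) :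
    bK p K l = 1 ⊗ₜ[ℚ] (integralBasis K l) := by
  unfold bK
  rw [Module.Basis.baseChange_apply]

instance instT2Kp : T2Space (Kp p K) := by
  let e := (bK p K).equivFun
  have h : Continuous e := IsModuleTopology.continuous_of_linearMap e.toLinearMap
  exact T2Space.of_injective_continuous e.injective h

/-- The embedding `ℤ_p → ℚ_p ⊗ K`. -/
noncomputable def fZ : ℤ_[p] →+* Kp p K :=
  (algebraMap ℚ_[p] (Kp p K)).comp (algebraMap ℤ_[p] ℚ_[p])

/-- The embedding `K → ℚ_p ⊗ K`. -/
noncomputable def gK : K →+* Kp p K :=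
  (Algebra.TensorProduct.includeRight : K →ₐ[ℚ] Kp p K).toRingHom

theorem gK_injective : Function.Injective (gK p K) := (gK p K).injective

theorem fZ_continuous : Continuous (fZ p K) := by
  have h1 : Continuous (algebraMap ℚ_[p] (Kp p K)) := by
    have : (fun x : ℚ_[p] => x • (1 : Kp p K)) = algebraMap ℚ_[p] (Kp p K) := by
      funext x; rw [Algebra.smul_def, mul_one]
    rw [← this]
    have : ContinuousSMul ℚ_[p] (Kp p K) := IsModuleTopology.toContinuousSMul ℚ_[p] _
    fun_prop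
  have h2 : Continuous (algebraMap ℤ_[p] ℚ_[p]) := by
    exact (continuous_subtype_val : Continuous fun x : ℤ_[p] => (x : ℚ_[p]))
  exact h1.comp h2

/-- `ℤ_p ⊗ 𝓞_K → ℚ_p ⊗ K` -/
noncomputable def ρ : ℤ_[p] ⊗[ℤ] 𝓞 K →ₐ[ℤ] Kp p K :=
  Algebra.TensorProduct.productMap (fZ p K).toIntAlgHom
    ((gK p K).comp (algebraMap (𝓞 K) K)).toIntAlgHom

/-- The compact open subring `ℤ_p ⊗ 𝓞_K` of `ℚ_p ⊗ K`. -/
noncomputable def SS : Subring (Kp p K) := (ρ p K : ℤ_[p] ⊗[ℤ] 𝓞 K →+* Kp p K).range

theorem fZ_mem (x : ℤ_[p]) : fZ p K x ∈ SS p K :=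
  ⟨x ⊗ₜ 1, by
    show ρ p K (x ⊗ₜ 1) = _
    unfold ρ
    rw [Algebra.TensorProduct.productMap_apply_tmul, map_one, mul_one]
    rfl⟩

theorem gK_mem (x : 𝓞 K) : gK p K (x : K) ∈ SS p K :=
  ⟨1 ⊗ₜ x, by
    show ρ p K (1 ⊗ₜ x) = _
    unfold ρ
    rw [Algebra.TensorProduct.productMap_apply_tmul, map_one, one_mul]
    rfl⟩

/-- Parametrisation of `SS` by `ℤ_p`-coordinates. -/
noncomputable def par (c : Module.Free.ChooseBasisIndex ℤ (𝓞 K) → ℤ_[p]) : Kp p K :=
  ∑ l, fZ p K (c l) * gK p K (RingOfIntegers.basis K l : 𝓞 K)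

theorem par_continuous : Continuous (par p K) := by
  unfold par
  refine continuous_finsetSum _ fun l _ => ?_
  exact ((fZ_continuous p K).comp (continuous_apply l)).mul continuous_const

theorem mem_SS_iff (x : Kp p K) : x ∈ SS p K ↔ ∃ c, par p K c = x := by
  constructor
  · rintro ⟨y, rfl⟩
    let b := (RingOfIntegers.basis K).baseChange ℤ_[p]
    refine ⟨fun l => b.repr y l, ?_⟩
    have h1 : y = ∑ l, b.repr y l • b l := (b.sum_repr y).symm
    have h2 : ∀ l, b l = 1 ⊗ₜ[ℤ] (RingOfIntegers.basis K l) := fun l => by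
      simp only [b]
      rw [Module.Basis.baseChange_apply]
    conv_rhs => rw [h1]
    rw [map_sum]
    unfold par
    refine Finset.sum_congr rfl fun l _ => ?_
    rw [h2, TensorProduct.smul_tmul', smul_eq_mul, mul_one]
    show _ = ρ p K _
    unfold ρ
    rw [Algebra.TensorProduct.productMap_apply_tmul]
    rfl
  · rintro ⟨c, rfl⟩
    unfold par
    refine Subring.sum_mem _ fun l _ => ?_
    exact Subring.mul_mem _ (fZ_mem p K _) (gK_mem p K _)

theorem SS_compact : IsCompact (SS p K : Set (Kp p K)) := by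
  have h : (SS p K : Set (Kp p K)) = Set.range (par p K) := by
    ext x
    exact mem_SS_iff p K x
  rw [h]
  exact isCompact_range (par_continuous p K)

/-- The compact group of units of `ℤ_p ⊗ 𝓞_K`. -/
noncomputable def CU : Subgroup (QpPoints p K) where
  carrier := {u | (u : Kp p K) ∈ SS p K ∧ ((u⁻¹ : (Kp p K)ˣ) : Kp p K) ∈ SS p K}
  mul_mem' := by
    rintro u v ⟨h1, h2⟩ ⟨h3, h4⟩
    refine ⟨?_, ?_⟩
    · rw [Units.val_mul]; exact (SS p K).mul_mem h1 h3
    · rw [mul_inv, Units.val_mul]; exact (SS p K).mul_mem h2 h4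
  one_mem' := ⟨(SS p K).one_mem, by rw [inv_one]; exact (SS p K).one_mem⟩
  inv_mem' := by
    rintro u ⟨h1, h2⟩
    exact ⟨h2, by rw [inv_inv]; exact h1⟩

theorem CU_compact : IsCompact (CU p K : Set (QpPoints p K)) := by
  have hcl : IsClosed (Set.range (Units.embedProduct (Kp p K))) := by
    have : Set.range (Units.embedProduct (Kp p K)) =
        {x : Kp p K × (Kp p K)ᵐᵒᵖ | x.1 * x.2.unop = 1} := by
      ext ⟨x, y⟩
      constructor
      · rintro ⟨u, hu⟩
        rw [Units.embedProduct_apply] at hu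
        obtain ⟨rfl, rfl⟩ := Prod.mk.inj hu
        simp
      · intro h
        refine ⟨⟨x, y.unop, h, by rw [mul_comm]; exact h⟩, ?_⟩
        rw [Units.embedProduct_apply]
        rfl
    rw [this]
    exact isClosed_eq (continuous_fst.mul (MulOpposite.continuous_unop.comp continuous_snd))
      continuous_const
  have hemb : IsClosedEmbedding (Units.embedProduct (Kp p K)) :=
    ⟨Units.isEmbedding_embedProduct, hcl⟩
  have h : (CU p K : Set (QpPoints p K)) = Units.embedProduct (Kp p K) ⁻¹'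
      ((SS p K : Set (Kp p K)) ×ˢ (MulOpposite.unop ⁻¹' (SS p K : Set (Kp p K)))) := by
    ext u
    rfl
  rw [h]
  apply hemb.isCompact_preimage
  refine (SS_compact p K).prod ?_
  exact MulOpposite.opHomeomorph.symm.isClosedEmbedding.isCompact_preimage (SS_compact p K)

/-- `p^m x_m → 0` for `x_m ∈ SS`. -/
theorem tendsto_pow_mul {x : ℕ → Kp p K} (hx : ∀ m, x m ∈ SS p K) (e : ℕ → ℕ)
    (he : Tendsto e atTop atTop) :
    Tendsto (fun m => (p : Kp p K) ^ (e m) * x m) atTop (𝓝 0) := by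
  choose c hc using fun m => (mem_SS_iff p K (x m)).mp (hx m)
  have h1 : ∀ m, (p : Kp p K) ^ (e m) * x m = par p K (fun l => (p : ℤ_[p]) ^ (e m) * c m l) := by
    intro m
    rw [← hc m]
    unfold par
    rw [Finset.mul_sum]
    refine Finset.sum_congr rfl fun l _ => ?_
    rw [map_mul, map_pow, map_natCast, mul_assoc]
  simp only [h1]
  have h2 : par p K 0 = 0 := by
    unfold par
    simp
  rw [← h2]
  refine ((par_continuous p K).tendsto 0).comp ?_
  rw [tendsto_pi_nhds]
  intro l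
  rw [Pi.zero_apply, tendsto_zero_iff_norm_tendsto_zero]
  have h3 : ∀ m, ‖(p : ℤ_[p]) ^ (e m) * c m l‖ ≤ (1 / 2 : ℝ) ^ (e m) := by
    intro m
    rw [norm_mul, norm_pow, PadicInt.norm_p]
    have hp : (2 : ℝ) ≤ p := by exact_mod_cast (Fact.out : p.Prime).two_le
    calc ((p : ℝ)⁻¹) ^ (e m) * ‖c m l‖ ≤ (1 / 2 : ℝ) ^ (e m) * 1 := by
          apply mul_le_mul _ (PadicInt.norm_le_one _) (norm_nonneg _) (by positivity)
          apply pow_le_pow_left₀ (by positivity)
          rw [one_div]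
          exact inv_anti₀ (by norm_num) hp
      _ = _ := mul_one _
  refine squeeze_zero (fun m => norm_nonneg _) h3 ?_
  exact (tendsto_pow_atTop_nhds_zero_of_lt_one (by norm_num) (by norm_num)).comp he

/-- Units congruent to `1` modulo `p^m` in both directions converge to `1`. -/
theorem tendsto_units {u : ℕ → QpPoints p K} (e : ℕ → ℕ) (he : Tendsto e atTop atTop)
    (h1 : ∀ m, ∃ x ∈ SS p K, ((u m : QpPoints p K) : Kp p K) = 1 + (p : Kp p K) ^ (e m) * x)
    (h2 : ∀ m, ∃ x ∈ SS p K, (((u m)⁻¹ : QpPoints p K) : Kp p K) = 1 + (p : Kp p K) ^ (e m) * x) :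
    Tendsto u atTop (𝓝 1) := by
  choose x hx hx' using h1
  choose y hy hy' using h2
  rw [Units.isEmbedding_embedProduct.tendsto_nhds_iff]
  have h3 : Tendsto (fun m => ((u m : QpPoints p K) : Kp p K)) atTop (𝓝 1) := by
    simp only [hx']
    have := (tendsto_pow_mul p K hx e he).const_add (1 : Kp p K)
    rwa [add_zero] at this
  have h4 : Tendsto (fun m => (((u m)⁻¹ : QpPoints p K) : Kp p K)) atTop (𝓝 1) := by
    simp only [hy']
    have := (tendsto_pow_mul p K hy e he).const_add (1 : Kp p K)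
    rwa [add_zero] at this
  have h5 : Units.embedProduct (Kp p K) 1 = (1, MulOpposite.op 1) := by
    rw [map_one]; rfl
  rw [h5, nhds_prod_eq]
  refine Tendsto.prodMk h3 ?_
  exact (MulOpposite.continuous_op.tendsto 1).comp h4

end topo

end Pool.Agent.H440R3
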