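import Mathlib
import Pool.Agent.H440R3.Alg
import Pool.Agent.H440R3.Rp
import Pool.Agent.H440R3.Topo

set_option autoImplicit false

/-!
# Elements of `L` converging to `1` whose exponents do not converge to `0`
-/

namespace Pool.Agent.H440R3

open scoped TensorProduct
open NumberField Filter Topology

section subgroup

variable (p : ℕ) [Fact p.Prime] (K : Type) [Field K] [NumberField K]

/-- The group of units congruent to `1` modulo `p ^ J`. -/
noncomputable def UJ (J : ℕ) : Subgroup (QpPoints p K) where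
  carrier := {u | (∃ x ∈ SS p K, (u : Kp p K) = 1 + (p : Kp p K) ^ J * x) ∧
    ∃ x ∈ SS p K, ((u⁻¹ : (Kp p K)ˣ) : Kp p K) = 1 + (p : Kp p K) ^ J * x}
  mul_mem' := by
    have hp : (p : Kp p K) ^ J ∈ SS p K := (SS p K).pow_mem (natCast_mem _ _) _
    have key : ∀ u v : Kp p K, (∃ x ∈ SS p K, u = 1 + (p : Kp p K) ^ J * x) →
        (∃ x ∈ SS p K, v = 1 + (p : Kp p K) ^ J * x) →
        ∃ x ∈ SS p K, u * v = 1 + (p : Kp p K) ^ J * x := by
      rintro u v ⟨x, hx, rfl⟩ ⟨y, hy, rfl⟩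
      refine ⟨x + y + (p : Kp p K) ^ J * x * y, ?_, by ring⟩
      exact (SS p K).add_mem ((SS p K).add_mem hx hy)
        ((SS p K).mul_mem ((SS p K).mul_mem hp hx) hy)
    rintro u v ⟨h1, h2⟩ ⟨h3, h4⟩
    refine ⟨?_, ?_⟩
    · rw [Units.val_mul]; exact key _ _ h1 h3
    · rw [mul_inv, Units.val_mul]; exact key _ _ h2 h4
  one_mem' := by
    have h : ∃ x ∈ SS p K, (1 : Kp p K) = 1 + (p : Kp p K) ^ J * x :=
      ⟨0, (SS p K).zero_mem, by ring⟩
    refine ⟨h, ?_⟩
    rw [inv_one]; exact h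
  inv_mem' := by
    rintro u ⟨h1, h2⟩
    exact ⟨h2, by rw [inv_inv]; exact h1⟩

end subgroup

section sig

variable (p : ℕ) [Fact p.Prime]

/-- The homomorphism `ℤ_p[X]/Φ → ℚ_p ⊗ K` sending `X` to `α i`. -/
noncomputable def sg (i : Fin 5) : Rp p →+* Kp p KK :=
  AdjoinRoot.lift (fZ p KK) (gK p KK (α i)) (by
    rw [eval₂_Phi, ← map_pow]
    have h := congrArg (gK p KK) (α_root i)
    rw [map_add, map_sub, map_mul, map_ofNat, map_ofNat, map_zero] at h
    exact h)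

theorem sg_root (i : Fin 5) : sg p i (AdjoinRoot.root (Φ ℤ_[p])) = gK p KK (α i) :=
  AdjoinRoot.lift_root _

theorem sg_algebraMap (i : Fin 5) (s : ℤ_[p]) : sg p i (algebraMap ℤ_[p] (Rp p) s) = fZ p KK s :=
  AdjoinRoot.lift_of _

theorem sg_zR (i : Fin 5) (t : ℤ) : sg p i (zR p t) = gK p KK (α i - (t : KK)) := by
  unfold zR
  rw [map_sub, map_sub, sg_root, map_intCast, map_intCast]

theorem sg_mem (i : Fin 5) (x : Rp p) : sg p i x ∈ SS p KK := by
  obtain ⟨f, rfl⟩ := AdjoinRoot.mk_surjective x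
  have h : sg p i (AdjoinRoot.mk (Φ ℤ_[p]) f) = f.eval₂ (fZ p KK) (gK p KK (α i)) :=
    AdjoinRoot.lift_mk _ _
  rw [h, Polynomial.eval₂_eq_sum_range]
  refine Subring.sum_mem _ fun k _ => ?_
  exact Subring.mul_mem _ (fZ_mem p KK _) (Subring.pow_mem _ (gK_mem p KK (αO i)) _)

end sig

namespace Pts

variable (P : Pts) (p : ℕ) [Fact p.Prime] (hp : ∀ j, ¬ (p : ℤ) ∣ fv (P.t j))

/-- The units `x - t_j` of `ℤ_p[X]/Φ`. -/
theorem isUnit_z {P : Pts} {p : ℕ} [Fact p.Prime] (hp : ∀ j, ¬ (p : ℤ) ∣ fv (P.t j)) (j : Fin 5) :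
    IsUnit (zR p (P.t j)) := isUnit_zR p (hp j)

/-- The units `x - t_j` of `ℤ_p[X]/Φ`. -/
noncomputable def zU {P : Pts} {p : ℕ} [Fact p.Prime] (hp : ∀ j, ¬ (p : ℤ) ∣ fv (P.t j))
    (j : Fin 5) : (Rp p)ˣ := (isUnit_z hp j).unit

variable {P p}

theorem map_zU (i j : Fin 5) : Units.map (sg p i : Rp p →* Kp p KK) (zU hp j) =
    incl p KK (P.ζ i j) := by
  ext
  show sg p i ((zU hp j : (Rp p)ˣ) : Rp p) = gK p KK (α i - (P.t j : KK))
  rw [← sg_zR]
  rfl

theorem map_sg_mem_CU (i : Fin 5) (u : (Rp p)ˣ) :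
    Units.map (sg p i : Rp p →* Kp p KK) u ∈ CU p KK :=
  ⟨sg_mem p i _, sg_mem p i _⟩

include hp in
theorem L_le_CU : P.L.map (incl p KK) ≤ CU p KK := by
  rintro _ ⟨_, ⟨c, rfl⟩, rfl⟩
  have h : incl p KK (P.Y c) = ∏ i, ∏ j, (incl p KK (P.ζ i j)) ^ (expo (Multiplicative.toAdd c) i j) := by
    show incl p KK (∏ i, ∏ j, P.ζ i j ^ (expo (Multiplicative.toAdd c) i j)) = _
    rw [map_prod]
    refine Finset.prod_congr rfl fun i _ => ?_
    rw [map_prod]
    refine Finset.prod_congr rfl fun j _ => ?_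
    rw [map_zpow]
  rw [h]
  refine Subgroup.prod_mem _ fun i _ => Subgroup.prod_mem _ fun j _ => ?_
  apply Subgroup.zpow_mem
  rw [← map_zU hp]
  exact map_sg_mem_CU i _

/-- The exponents of the elements which converge to `1`. -/
def cvec (M : ℕ) (d : Fin 5 → ℕ) : Idx → ℤ :=
  fun x => (M : ℤ) * (d x.1.1.castSucc) * (d x.1.2)

theorem fill_cvec (M : ℕ) (d : Fin 5 → ℕ) (i : Fin 4) (j : Fin 5) :
    fill (cvec M d) i j = (M : ℤ) * (d i.castSucc) * (d j) := by
  unfold fill cvec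
  split_ifs with h
  · rfl
  · show (M : ℤ) * (d j) * (d i.castSucc) = _
    ring

theorem expo_last (M : ℕ) (d : Fin 5 → ℕ) (j : Fin 5) :
    expo (cvec M d) (Fin.last 4) j = - ∑ i : Fin 4, (M : ℤ) * (d i.castSucc) * (d j) := by
  unfold expo
  rw [ext5_last]
  simp only [fill_cvec]

theorem expo_cast (M : ℕ) (d : Fin 5 → ℕ) (i : Fin 4) (j : Fin 5) :
    expo (cvec M d) i.castSucc j = (M : ℤ) * (d i.castSucc) * (d j) := by
  unfold expo
  rw [ext5_castSucc]
  simp only [fill_cvec]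

/-- Formula for the elements converging to `1`. -/
theorem incl_Y_cvec (M : ℕ) (d : Fin 5 → ℕ) :
    incl p KK (P.Y (Multiplicative.ofAdd (cvec M d))) =
      ∏ i : Fin 4, (Units.map (sg p i.castSucc : Rp p →* Kp p KK) (∏ j, zU hp j ^ (M * d j)) *
        (Units.map (sg p (Fin.last 4) : Rp p →* Kp p KK) (∏ j, zU hp j ^ (M * d j)))⁻¹) ^
          (d i.castSucc) := by
  rw [Y_apply, map_prod, Fin.prod_univ_castSucc]
  have h1 : ∀ i : Fin 4, incl p KK (∏ j, P.ζ i.castSucc j ^ expo (cvec M d) i.castSucc j) =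
      (Units.map (sg p i.castSucc : Rp p →* Kp p KK) (∏ j, zU hp j ^ (M * d j))) ^
        (d i.castSucc) := by
    intro i
    rw [map_prod, map_prod, ← Finset.prod_pow]
    refine Finset.prod_congr rfl fun j _ => ?_
    rw [map_zpow, map_pow, map_zU, expo_cast, ← pow_mul, ← zpow_natCast]
    congr 1
    push_cast; ring
  have h2 : incl p KK (∏ j, P.ζ (Fin.last 4) j ^ expo (cvec M d) (Fin.last 4) j) =
      ∏ i : Fin 4, ((Units.map (sg p (Fin.last 4) : Rp p →* Kp p KK)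
        (∏ j, zU hp j ^ (M * d j)))⁻¹) ^ (d i.castSucc) := by
    rw [Finset.prod_pow_eq_pow_sum, map_prod, map_prod, inv_pow, ← Finset.prod_pow,
      ← Finset.prod_inv_distrib]
    refine Finset.prod_congr rfl fun j _ => ?_
    rw [map_zpow, map_pow, map_zU, expo_last, ← pow_mul, zpow_neg, ← zpow_natCast]
    congr 2
    rw [← Finset.sum_mul, ← Finset.mul_sum]
    push_cast; ring
  simp only [h1]
  rw [h2, ← Finset.prod_mul_distrib]
  refine Finset.prod_congr rfl fun i _ => ?_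
  rw [mul_pow]

include hp in
/-- If the product is a scalar modulo `p ^ J`, then the element is `1` modulo `p ^ J`. -/
theorem mem_UJ (M : ℕ) (d : Fin 5 → ℕ) (J : ℕ) (s : ℤ_[p]) (r : Rp p)
    (h : ∏ j, (zR p (P.t j) ^ M) ^ d j = algebraMap ℤ_[p] (Rp p) s + (p : Rp p) ^ J * r) :
    incl p KK (P.Y (Multiplicative.ofAdd (cvec M d))) ∈ UJ p KK J := by
  rw [incl_Y_cvec hp]
  set v : (Rp p)ˣ := ∏ j, zU hp j ^ (M * d j) with hv
  have hv' : (v : Rp p) = algebraMap ℤ_[p] (Rp p) s + (p : Rp p) ^ J * r := by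
    rw [← h, hv, Units.coe_prod]
    refine Finset.prod_congr rfl fun j _ => ?_
    rw [Units.val_pow_eq_pow_val, pow_mul]
    rfl
  have key : ∀ i k : Fin 5, ∃ x ∈ SS p KK,
      ((Units.map (sg p i : Rp p →* Kp p KK) v *
        (Units.map (sg p k : Rp p →* Kp p KK) v)⁻¹ : (Kp p KK)ˣ) : Kp p KK) =
        1 + (p : Kp p KK) ^ J * x := by
    intro i k
    refine ⟨(sg p i r - sg p k r) * sg p k ((v⁻¹ : (Rp p)ˣ) : Rp p), ?_, ?_⟩
    · exact Subring.mul_mem _ (Subring.sub_mem _ (sg_mem p i _) (sg_mem p k _)) (sg_mem p k _)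
    · rw [Units.val_mul]
      show sg p i (v : Rp p) * sg p k ((v⁻¹ : (Rp p)ˣ) : Rp p) = _
      have h1 : sg p k (v : Rp p) * sg p k ((v⁻¹ : (Rp p)ˣ) : Rp p) = 1 := by
        rw [← map_mul, Units.mul_inv, map_one]
      have h2 : sg p i (v : Rp p) = sg p k (v : Rp p) + (p : Kp p KK) ^ J *
          (sg p i r - sg p k r) := by
        rw [hv', map_add, map_add, map_mul, map_mul, sg_algebraMap, sg_algebraMap, map_pow,
          map_pow, map_natCast, map_natCast]
        ring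
      rw [h2]
      linear_combination h1
  refine Subgroup.prod_mem _ fun i _ => Subgroup.pow_mem _ ?_ _
  refine ⟨key _ _, ?_⟩
  rw [mul_inv, inv_inv, mul_comm]
  exact key _ _

/-- The last element is not a scalar. -/
theorem not_scalar {M : ℕ} (hM : 0 < M) (s : ℤ_[p]) :
    zR p (P.t (Fin.last 4)) ^ M ≠ algebraMap ℤ_[p] (Rp p) s := by
  intro h
  have h0 : ∀ i, gK p KK ((α i - (P.t (Fin.last 4) : KK)) ^ M) = fZ p KK s := by
    intro i
    have := congrArg (sg p i) h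
    rw [map_pow, sg_zR, sg_algebraMap, ← map_pow] at this
    exact this
  have h1 : (α 0 - (P.t (Fin.last 4) : KK)) ^ M = (α 1 - (P.t (Fin.last 4) : KK)) ^ M :=
    gK_injective p KK ((h0 0).trans (h0 1).symm)
  have h2 : P.ζ 0 (Fin.last 4) ^ M = P.ζ 1 (Fin.last 4) ^ M := by
    ext
    exact h1
  have h3 := P.indep (fun i j => if j = Fin.last 4 then (if i = 0 then (M : ℤ) else
    if i = 1 then -(M : ℤ) else 0) else 0) (by
      have hj : ∀ i, ∏ j, P.ζ i j ^ (if j = Fin.last 4 then (if i = 0 then (M : ℤ) else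
          if i = 1 then -(M : ℤ) else 0) else 0) = P.ζ i (Fin.last 4) ^ ((if i = 0 then (M : ℤ) else
          if i = 1 then -(M : ℤ) else 0) : ℤ) := by
        intro i
        rw [Finset.prod_eq_single (Fin.last 4)]
        · rw [if_pos rfl]
        · intro j _ hj
          rw [if_neg hj, zpow_zero]
        · intro h; exact absurd (Finset.mem_univ _) h
      simp only [hj]
      rw [Fin.prod_univ_five]
      rw [if_pos rfl, if_neg (by decide), if_pos rfl, if_neg (by decide), if_neg (by decide),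
        if_neg (by decide), if_neg (by decide), if_neg (by decide), if_neg (by decide),
        zpow_zero, zpow_zero, zpow_zero, mul_one, mul_one, mul_one, zpow_neg, zpow_natCast,
        zpow_natCast, h2, mul_inv_cancel])
  have h4 := congrFun (congrFun h3 0) (Fin.last 4)
  simp at h4
  omega

/-- `n ∈ ℤ_p` is not too small when `p ^ J` does not divide it. -/
theorem norm_ge {J : ℕ} {n : ℕ} (h : ¬ p ^ J ∣ n) : (p : ℝ) ^ (-(J : ℤ)) ≤ ‖((n : ℕ) : ℤ_[p])‖ := by
  by_contra hcon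
  push Not at hcon
  apply h
  have h1 : ‖((n : ℤ) : ℤ_[p])‖ ≤ (p : ℝ) ^ (-(J : ℤ)) := by
    rw [Int.cast_natCast]; exact hcon.le
  rw [PadicInt.norm_int_le_pow_iff_dvd] at h1
  exact_mod_cast h1

include hp in
/-- The main statement: a sequence of elements of `L` converging to `1`, whose exponents converge
to a non-zero limit. -/
theorem exists_seq : ∃ (c : ℕ → (Idx → ℤ)) (cinf : Idx → ℤ_[p]), cinf ≠ 0 ∧
    Tendsto (fun m i => ((c m i : ℤ) : ℤ_[p])) atTop (𝓝 cinf) ∧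
    Tendsto (fun m => incl p KK (P.Y (Multiplicative.ofAdd (c m)))) atTop (𝓝 1) := by
  obtain ⟨M, hM, hy⟩ := exists_pow_one_all (bRp p) (isUnit_z hp)
  obtain ⟨J₀, -, hJ₀⟩ := exists_J (bRp p) (bRp_zero p) hy (not_scalar (P := P) hM)
  choose d hd s r hsr using fun m : ℕ => exists_relation (bRp p) (bRp_zero p) hy (J₀ + m)
  have hex : ∀ m, ∃ i : Fin 4, ¬ p ^ J₀ ∣ d m i.castSucc := by
    intro m
    refine hJ₀ (d m) (hd m) ⟨s m, (p : Rp p) ^ m * r m, ?_⟩
    rw [hsr m, pow_add]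
    ring
  -- compactness
  let S : Set (Fin 5 → ℤ_[p]) := {n | ∃ i : Fin 4, (p : ℝ) ^ (-(J₀ : ℤ)) ≤ ‖n i.castSucc‖}
  have hS : IsCompact S := by
    apply IsClosed.isCompact
    have : S = ⋃ i : Fin 4, {n : Fin 5 → ℤ_[p] | (p : ℝ) ^ (-(J₀ : ℤ)) ≤ ‖n i.castSucc‖} := by
      ext n; simp [S]
    rw [this]
    refine isClosed_iUnion_of_finite fun i => ?_
    exact isClosed_le continuous_const (continuous_norm.comp (continuous_apply _))
  obtain ⟨n, hn, φ, hφ, hlim⟩ := hS.tendsto_subseq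
    (x := fun m j => ((d m j : ℕ) : ℤ_[p])) (fun m => by
      obtain ⟨i, hi⟩ := hex m
      exact ⟨i, norm_ge hi⟩)
  obtain ⟨i₀, hi₀⟩ := hn
  have hp0 : (p : ℝ) ^ (-(J₀ : ℤ)) > 0 := by
    have : (0 : ℝ) < p := by exact_mod_cast (Fact.out : p.Prime).pos
    positivity
  have hni₀ : n i₀.castSucc ≠ 0 := by
    intro h
    rw [h, norm_zero] at hi₀
    linarith
  refine ⟨fun m => cvec M (d (φ m)),
    fun x => (M : ℤ_[p]) * n x.1.1.castSucc * n x.1.2, ?_, ?_, ?_⟩
  · intro h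
    have h1 := congrFun h ⟨(i₀, i₀.castSucc), by simp⟩
    have h2 : (M : ℤ_[p]) * n i₀.castSucc * n i₀.castSucc = 0 := h1
    have hM' : (M : ℤ_[p]) ≠ 0 := by exact_mod_cast hM.ne'
    exact (mul_ne_zero (mul_ne_zero hM' hni₀) hni₀) h2
  · rw [tendsto_pi_nhds]
    intro x
    have h1 : ∀ j, Tendsto (fun m => ((d (φ m) j : ℕ) : ℤ_[p])) atTop (𝓝 (n j)) :=
      fun j => (tendsto_pi_nhds.mp hlim) j
    have h2 : (fun m => ((cvec M (d (φ m)) x : ℤ) : ℤ_[p])) =
        fun m => (M : ℤ_[p]) * ((d (φ m) x.1.1.castSucc : ℕ) : ℤ_[p]) *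
          ((d (φ m) x.1.2 : ℕ) : ℤ_[p]) := by
      funext m
      unfold cvec
      push_cast
      rfl
    rw [h2]
    exact ((tendsto_const_nhds.mul (h1 _)).mul (h1 _))
  · have hmem : ∀ m, incl p KK (P.Y (Multiplicative.ofAdd (cvec M (d (φ m))))) ∈
        UJ p KK (J₀ + φ m) := fun m => mem_UJ hp M (d (φ m)) (J₀ + φ m) (s (φ m)) (r (φ m)) (hsr (φ m))
    have he : Tendsto (fun m => J₀ + φ m) atTop atTop :=
      tendsto_atTop_mono (fun m => Nat.le_add_left _ _) hφ.tendsto_atTop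
    exact tendsto_units p KK (fun m => J₀ + φ m) he (fun m => (hmem m).1) (fun m => (hmem m).2)

end Pts

end Pool.Agent.H440R3
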