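import Mathlib
import Pool.Agent.H440R3.RankB
import Pool.Agent.H440R3.Seq
import Pool.Agent.H440R3.Comm

set_option autoImplicit false

/-!
# The `p`-adic part fails for the splitting field of `X ^ 5 - 25 X + 5`
-/

namespace Pool.Agent.H440R3

open Filter Topology

namespace Pts

variable {P : Pts} {p : ℕ} [Fact p.Prime]

theorem map_L : P.L.map (incl p KK) = ((incl p KK).comp P.Y).range := by
  unfold L
  rw [MonoidHom.range_comp]

theorem isCompact_closure (hp : ∀ j, ¬ (p : ℤ) ∣ fv (P.t j)) :
    IsCompact (closureIn p KK P.L : Set (QpPoints p KK)) := by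
  have hcl : IsClosed (CU p KK : Set (QpPoints p KK)) := (CU_compact p KK).isClosed
  have h : closureIn p KK P.L ≤ CU p KK :=
    Subgroup.topologicalClosure_minimal _ (L_le_CU hp) hcl
  exact (CU_compact p KK).of_isClosed_subset (Subgroup.isClosed_topologicalClosure _) h

theorem not_PadicPart (hp : ∀ j, ¬ (p : ℤ) ∣ fv (P.t j)) : ¬ PadicPart p KK := by
  intro h
  have hCc := isCompact_closure hp
  obtain ⟨H, Z, hH, hZ, ⟨φ⟩⟩ := h P.L P.L_fg
    ⟨CU p KK, CU_compact p KK, L_le_CU hp⟩ (fun Ψ => P.rank_condition p Ψ)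
    (closureIn p KK P.L) ⟨le_rfl, hCc, fun C' h' _ => h'⟩
  obtain ⟨c, cinf, hcinf, hlim, hone⟩ := exists_seq hp
  have hC' : closureIn p KK P.L = ((incl p KK).comp P.Y).range.topologicalClosure := by
    rw [← map_L]
    rfl
  have hrk := P.rk_L
  revert φ hH hZ
  revert Z
  rw [hrk]
  intro Z hH hZ φ
  exact commens_contra ((incl p KK).comp P.Y) _ hC' hCc H Z hH hZ φ c cinf hcinf hlim hone

end Pts

/-- First choice of the five integers. -/
def PA : Pts where
  t := ![-1, 1, -2, 2, -3]
  q := ![29, 19, 23, 13, 163]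
  hq := by decide +kernel
  hval := by decide +kernel
  hinj := by decide +kernel
  hder := by decide +kernel

/-- Second choice of the five integers. -/
def PB : Pts where
  t := ![3, -4, 4, -6, -8]
  q := ![173, 919, 929, 7621, 32563]
  hq := by
    intro j
    fin_cases j <;> norm_num
  hval := by decide +kernel
  hinj := by decide +kernel
  hder := by decide +kernel

theorem not_dvd_of {P : Pts} {p : ℕ} [Fact p.Prime] (h : ∀ j, p ≠ P.q j) (j : Fin 5) :
    ¬ (p : ℤ) ∣ fv (P.t j) := by
  intro hd
  have h1 : (p : ℤ) ∣ (P.q j : ℤ) := by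
    rcases P.hval j with h2 | h2 <;> rw [h2] at hd
    · exact hd
    · exact (Int.dvd_neg).mp hd
  have h2 : p ∣ P.q j := by exact_mod_cast h1
  exact h j ((Nat.prime_dvd_prime_iff_eq Fact.out (P.hq j)).mp h2)

/-- The `p`-adic part fails for `K = KK` and all primes `p`. -/
theorem not_PadicPart_KK (p : ℕ) [Fact p.Prime] : ¬ PadicPart p KK := by
  by_cases hA : ∀ j, p ≠ PA.q j
  · exact Pts.not_PadicPart (not_dvd_of hA)
  · have hB : ∀ j, p ≠ PB.q j := by
      push Not at hA
      obtain ⟨i, hi⟩ := hA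
      have key : ∀ i j, PA.q i ≠ PB.q j := by decide +kernel
      exact fun j h => key i j (hi.symm.trans h)
    exact Pts.not_PadicPart (not_dvd_of hB)

end Pool.Agent.H440R3
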